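/-!
# Kernel checker: definitions

A state is a number `s` with 1024 lanes of 16 bits; bit `x` of lane `v` says that the vertex `v` may have type `x`
(types 0..8: labels, 9..13: ends, 14: unknown vertex). A clause is a number `B` of the same shape: some vertex `v` has
a type in lane `v` of `B`. Everything below is written with the functions on literals that the kernel evaluates.
-/
noncomputable section
namespace Pool.Agent.S10.Chk

def ALL : Nat := Nat.sub (Nat.pow 2 16384) 1
def ones : Nat := Nat.div ALL 65535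
def F : Nat := Nat.mul ones 0x7FFF
def H : Nat := Nat.mul ones 0x8000
def M0 : Nat := Nat.div ALL (Nat.add (Nat.pow 2 16) 1)
def M1 : Nat := Nat.div ALL (Nat.add (Nat.pow 2 32) 1)
def M2 : Nat := Nat.div ALL (Nat.add (Nat.pow 2 64) 1)
def M3 : Nat := Nat.div ALL (Nat.add (Nat.pow 2 128) 1)
def M4 : Nat := Nat.div ALL (Nat.add (Nat.pow 2 256) 1)
def M5 : Nat := Nat.div ALL (Nat.add (Nat.pow 2 512) 1)
def M6 : Nat := Nat.div ALL (Nat.add (Nat.pow 2 1024) 1)
def M7 : Nat := Nat.div ALL (Nat.add (Nat.pow 2 2048) 1)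
def M8 : Nat := Nat.div ALL (Nat.add (Nat.pow 2 4096) 1)
def M9 : Nat := Nat.div ALL (Nat.add (Nat.pow 2 8192) 1)
def P0 : Nat := Nat.mul ones 0x4001
def P1 : Nat := Nat.mul ones 0x4203
def P2 : Nat := Nat.mul ones 0x4006
def P3 : Nat := Nat.mul ones 0x440c
def P4 : Nat := Nat.mul ones 0x4018
def P5 : Nat := Nat.mul ones 0x4830
def P6 : Nat := Nat.mul ones 0x4060
def P7 : Nat := Nat.mul ones 0x50c0
def P8 : Nat := Nat.mul ones 0x4180
def P9 : Nat := Nat.mul ones 0x6100
def N0 : Nat := Nat.mul ones 0x7ffe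
def N1 : Nat := Nat.mul ones 0x7dfc
def N2 : Nat := Nat.mul ones 0x7ff9
def N3 : Nat := Nat.mul ones 0x7bf3
def N4 : Nat := Nat.mul ones 0x7fe7
def N5 : Nat := Nat.mul ones 0x77cf
def N6 : Nat := Nat.mul ones 0x7f9f
def N7 : Nat := Nat.mul ones 0x6f3f
def N8 : Nat := Nat.mul ones 0x7e7f
def N9 : Nat := Nat.mul ones 0x5eff

/-- direction `0` -/
def s0 : Nat → Nat := fun s => (fun t => Nat.land s (Nat.shiftRight (Nat.lor
    (Nat.mul (Nat.land (Nat.add (Nat.land t P0) F) H) 0x4001)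
    (Nat.mul (Nat.land (Nat.add (Nat.land t N0) F) H) 0x7ffe)) 15))
  (Nat.lor (Nat.land (Nat.shiftRight s 16) M0) (Nat.shiftLeft (Nat.land s M0) 16))
/-- direction `1` -/
def s1 : Nat → Nat := fun s => (fun t => Nat.land s (Nat.shiftRight (Nat.lor
    (Nat.mul (Nat.land (Nat.add (Nat.land t P1) F) H) 0x4203)
    (Nat.mul (Nat.land (Nat.add (Nat.land t N1) F) H) 0x7dfc)) 15))
  (Nat.lor (Nat.land (Nat.shiftRight s 32) M1) (Nat.shiftLeft (Nat.land s M1) 32))
/-- direction `2` -/
def s2 : Nat → Nat := fun s => (fun t => Nat.land s (Nat.shiftRight (Nat.lor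
    (Nat.mul (Nat.land (Nat.add (Nat.land t P2) F) H) 0x4006)
    (Nat.mul (Nat.land (Nat.add (Nat.land t N2) F) H) 0x7ff9)) 15))
  (Nat.lor (Nat.land (Nat.shiftRight s 64) M2) (Nat.shiftLeft (Nat.land s M2) 64))
/-- direction `3` -/
def s3 : Nat → Nat := fun s => (fun t => Nat.land s (Nat.shiftRight (Nat.lor
    (Nat.mul (Nat.land (Nat.add (Nat.land t P3) F) H) 0x440c)
    (Nat.mul (Nat.land (Nat.add (Nat.land t N3) F) H) 0x7bf3)) 15))
  (Nat.lor (Nat.land (Nat.shiftRight s 128) M3) (Nat.shiftLeft (Nat.land s M3) 128))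
/-- direction `4` -/
def s4 : Nat → Nat := fun s => (fun t => Nat.land s (Nat.shiftRight (Nat.lor
    (Nat.mul (Nat.land (Nat.add (Nat.land t P4) F) H) 0x4018)
    (Nat.mul (Nat.land (Nat.add (Nat.land t N4) F) H) 0x7fe7)) 15))
  (Nat.lor (Nat.land (Nat.shiftRight s 256) M4) (Nat.shiftLeft (Nat.land s M4) 256))
/-- direction `5` -/
def s5 : Nat → Nat := fun s => (fun t => Nat.land s (Nat.shiftRight (Nat.lor
    (Nat.mul (Nat.land (Nat.add (Nat.land t P5) F) H) 0x4830)
    (Nat.mul (Nat.land (Nat.add (Nat.land t N5) F) H) 0x77cf)) 15))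
  (Nat.lor (Nat.land (Nat.shiftRight s 512) M5) (Nat.shiftLeft (Nat.land s M5) 512))
/-- direction `6` -/
def s6 : Nat → Nat := fun s => (fun t => Nat.land s (Nat.shiftRight (Nat.lor
    (Nat.mul (Nat.land (Nat.add (Nat.land t P6) F) H) 0x4060)
    (Nat.mul (Nat.land (Nat.add (Nat.land t N6) F) H) 0x7f9f)) 15))
  (Nat.lor (Nat.land (Nat.shiftRight s 1024) M6) (Nat.shiftLeft (Nat.land s M6) 1024))
/-- direction `7` -/
def s7 : Nat → Nat := fun s => (fun t => Nat.land s (Nat.shiftRight (Nat.lor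
    (Nat.mul (Nat.land (Nat.add (Nat.land t P7) F) H) 0x50c0)
    (Nat.mul (Nat.land (Nat.add (Nat.land t N7) F) H) 0x6f3f)) 15))
  (Nat.lor (Nat.land (Nat.shiftRight s 2048) M7) (Nat.shiftLeft (Nat.land s M7) 2048))
/-- direction `8` -/
def s8 : Nat → Nat := fun s => (fun t => Nat.land s (Nat.shiftRight (Nat.lor
    (Nat.mul (Nat.land (Nat.add (Nat.land t P8) F) H) 0x4180)
    (Nat.mul (Nat.land (Nat.add (Nat.land t N8) F) H) 0x7e7f)) 15))
  (Nat.lor (Nat.land (Nat.shiftRight s 4096) M8) (Nat.shiftLeft (Nat.land s M8) 4096))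
/-- direction `9` -/
def s9 : Nat → Nat := fun s => (fun t => Nat.land s (Nat.shiftRight (Nat.lor
    (Nat.mul (Nat.land (Nat.add (Nat.land t P9) F) H) 0x6100)
    (Nat.mul (Nat.land (Nat.add (Nat.land t N9) F) H) 0x5eff)) 15))
  (Nat.lor (Nat.land (Nat.shiftRight s 8192) M9) (Nat.shiftLeft (Nat.land s M9) 8192))

/-- the direction step with opcode `op` (1..10) -/
def dirf (op : Nat) : Nat → Nat :=
  @Bool.rec (fun _ => Nat → Nat)
    (@Bool.rec (fun _ => Nat → Nat)
      (@Bool.rec (fun _ => Nat → Nat) (@Bool.rec (fun _ => Nat → Nat) s0 s1 (Nat.ble 2 op)) s2 (Nat.ble 3 op))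
      (@Bool.rec (fun _ => Nat → Nat) s3 s4 (Nat.ble 5 op)) (Nat.ble 4 op))
    (@Bool.rec (fun _ => Nat → Nat)
      (@Bool.rec (fun _ => Nat → Nat) s5 (@Bool.rec (fun _ => Nat → Nat) s6 s7 (Nat.ble 8 op)) (Nat.ble 7 op))
      (@Bool.rec (fun _ => Nat → Nat) s8 s9 (Nat.ble 10 op)) (Nat.ble 9 op))
    (Nat.ble 6 op)

def hint3 (s X L : Nat) : Nat := Nat.xor s (Nat.xor (Nat.land s L) X)
def hint2 (s X Z : Nat) : Nat :=
  @Bool.rec (fun _ => Nat) s (hint3 s X (Nat.mul Z 65535)) (Nat.beq (Nat.land Z (Nat.sub Z 1)) 0)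
def hint1 (s X : Nat) : Nat := hint2 s X (Nat.shiftRight (Nat.land (Nat.add X F) H) 15)
/-- unit propagation with the clause `B` -/
def hint (s B : Nat) : Nat := hint1 s (Nat.land s B)
/-- conflict with the clause `B` -/
def hintc (s B : Nat) : Nat := @Bool.rec (fun _ => Nat) s 0 (Nat.beq (Nat.land s B) 0)

/-- the mask of a packed clause: digits of 25 bits -/
def mkl (n : Nat) : Nat → Nat → Nat :=
  @Nat.rec (fun _ => Nat → Nat → Nat) (fun _ acc => acc) (fun _ ih x acc => ih (Nat.shiftRight x 25)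
    (Nat.shiftLeft (Nat.add acc (Nat.land (Nat.shiftRight x 14) 0x7FFF)) (Nat.land x 0x3FF0))) n
def mk (c : Nat) : Nat := mkl (Nat.land c 255) (Nat.shiftRight c 4) 0

/-- a binary decision on the value of `n`, which is evaluated first -/
def frc (n : Nat) (k : Nat → Nat) : Nat := @Nat.rec (fun _ => Nat) (k 0) (fun m _ => k (Nat.succ m)) n

def w0 (m : Nat) : Nat := Nat.lor (Nat.land (Nat.shiftRight m 16) M0) (Nat.shiftLeft (Nat.land m M0) 16)
def w1 (m : Nat) : Nat := Nat.lor (Nat.land (Nat.shiftRight m 32) M1) (Nat.shiftLeft (Nat.land m M1) 32)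
def w2 (m : Nat) : Nat := Nat.lor (Nat.land (Nat.shiftRight m 64) M2) (Nat.shiftLeft (Nat.land m M2) 64)
def w3 (m : Nat) : Nat := Nat.lor (Nat.land (Nat.shiftRight m 128) M3) (Nat.shiftLeft (Nat.land m M3) 128)
def w4 (m : Nat) : Nat := Nat.lor (Nat.land (Nat.shiftRight m 256) M4) (Nat.shiftLeft (Nat.land m M4) 256)
def w5 (m : Nat) : Nat := Nat.lor (Nat.land (Nat.shiftRight m 512) M5) (Nat.shiftLeft (Nat.land m M5) 512)
def w6 (m : Nat) : Nat := Nat.lor (Nat.land (Nat.shiftRight m 1024) M6) (Nat.shiftLeft (Nat.land m M6) 1024)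
def w7 (m : Nat) : Nat := Nat.lor (Nat.land (Nat.shiftRight m 2048) M7) (Nat.shiftLeft (Nat.land m M7) 2048)
def w8 (m : Nat) : Nat := Nat.lor (Nat.land (Nat.shiftRight m 4096) M8) (Nat.shiftLeft (Nat.land m M8) 4096)
def w9 (m : Nat) : Nat := Nat.lor (Nat.land (Nat.shiftRight m 8192) M9) (Nat.shiftLeft (Nat.land m M9) 8192)
/-- translation of a mask by `t` -/
def transl (m t : Nat) : Nat :=
  @Bool.rec (fun _ => Nat → Nat) (fun m => m) w9 (Nat.ble 1 (Nat.land t 512)) (@Bool.rec (fun _ => Nat → Nat) (fun m => m) w8 (Nat.ble 1 (Nat.land t 256)) (@Bool.rec (fun _ => Nat → Nat) (fun m => m) w7 (Nat.ble 1 (Nat.land t 128)) (@Bool.rec (fun _ => Nat → Nat) (fun m => m) w6 (Nat.ble 1 (Nat.land t 64)) (@Bool.rec (fun _ => Nat → Nat) (fun m => m) w5 (Nat.ble 1 (Nat.land t 32)) (@Bool.rec (fun _ => Nat → Nat) (fun m => m) w4 (Nat.ble 1 (Nat.land t 16)) (@Bool.rec (fun _ => Nat → Nat) (fun m => m) w3 (Nat.ble 1 (Nat.land t 8)) (@Bool.rec (fun _ => Nat → Nat) (fun m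 => m) w2 (Nat.ble 1 (Nat.land t 4)) (@Bool.rec (fun _ => Nat → Nat) (fun m => m) w1 (Nat.ble 1 (Nat.land t 2)) (@Bool.rec (fun _ => Nat → Nat) (fun m => m) w0 (Nat.ble 1 (Nat.land t 1)) (m))))))))))

/-- tables: trees of chunks; a chunk holds 16 entries, after 17 offsets of 16 bits -/
inductive T where
  | leaf (c : Nat)
  | node (a b c d : T)

def getc (t : T) : Nat → Nat :=
  @T.rec (fun _ => Nat → Nat) (fun c _ => c)
    (fun _ _ _ _ ga gb gc gd i => @Nat.rec (fun _ => Nat → Nat) ga (fun d _ => @Nat.rec (fun _ => Nat → Nat) gb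
      (fun d _ => @Nat.rec (fun _ => Nat → Nat) gc (fun _ _ => gd) d) d) (Nat.land i 3) (Nat.shiftRight i 2)) t

def entc (ch r : Nat) : Nat :=
  (fun o => Nat.land (Nat.shiftRight ch o)
      (Nat.sub (Nat.shiftLeft 1 (Nat.sub (Nat.land (Nat.shiftRight ch (Nat.mul 16 (Nat.succ r))) 0xFFFF) o)) 1))
    (Nat.land (Nat.shiftRight ch (Nat.mul 16 r)) 0xFFFF)
/-- entry `i` of a table -/
def ent (t : T) (i : Nat) : Nat := frc (Nat.shiftRight i 4) (fun q => entc (getc t q) (Nat.land i 15))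

/-- `if b then x else y` -/
def br (b : Bool) (x y : Nat) : Nat := @Bool.rec (fun _ => Nat) y x b

/-- closed local walks: `x` holds the directions in pairs of digits of 4 bits, `v` is the current vertex, `b` the
direction of the last step; `acc` says that one of the vertices at even places so far does not have the type
given by the walk. If the walk is not admissible the result is `ALL` -/
def cutl (n : Nat) : Nat → Nat → Nat → Nat → Nat → Nat :=
  @Nat.rec (fun _ => Nat → Nat → Nat → Nat → Nat → Nat)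
    (fun b0 _ v b acc => br (Nat.beq v 0) (br (Nat.beq b b0) acc ALL) ALL)
    (fun _ ih b0 x v b acc => (fun d e =>
      br (Nat.ble d 9) (br (Nat.ble e 9) (br (Nat.beq d e) ALL
        (br (Nat.beq d (Nat.succ b))
          (ih b0 (Nat.shiftRight x 8) (Nat.xor v (Nat.xor (Nat.shiftLeft 1 d) (Nat.shiftLeft 1 e))) e
            (Nat.lor acc (Nat.shiftLeft (Nat.xor 0x7FFF (Nat.shiftLeft 1 b)) (Nat.shiftLeft v 4))))
          (br (Nat.beq b (Nat.succ d))
            (ih b0 (Nat.shiftRight x 8) (Nat.xor v (Nat.xor (Nat.shiftLeft 1 d) (Nat.shiftLeft 1 e))) e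
              (Nat.lor acc (Nat.shiftLeft (Nat.xor 0x7FFF (Nat.shiftLeft 1 d)) (Nat.shiftLeft v 4)))) ALL)))
        ALL) ALL) (Nat.land x 15) (Nat.land (Nat.shiftRight x 4) 15)) n

/-- the clause of a packed closed walk from the vertex 0: 8 bits: number of pairs, 4 bits: last direction, digits -/
def cutm (q : Nat) : Nat :=
  br (Nat.beq (Nat.land q 255) 0) ALL
    (cutl (Nat.land q 255) (Nat.land (Nat.shiftRight q 8) 15) (Nat.shiftRight q 12) 0
      (Nat.land (Nat.shiftRight q 8) 15) 0)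

/-- the clause of an entry `e`; bits 0 and 1 are its kind. 0: packed clause (then its program); 1: translation of a
clause of the library; otherwise: axiom -/
def mkE (lib ax : Nat → Nat) (e : Nat) : Nat :=
  @Nat.rec (fun _ => Nat) (mk (Nat.shiftRight e 2))
    (fun d _ => @Nat.rec (fun _ => Nat)
      (frc (Nat.shiftRight e 12) (fun q => transl (lib q) (Nat.land (Nat.shiftRight e 2) 1023)))
      (fun _ _ => ax (Nat.shiftRight e 2)) d) (Nat.land e 3)
/-- the program of an entry of kind 0 -/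
def prgE (e : Nat) : Nat := Nat.shiftRight e (Nat.add 10 (Nat.mul 25 (Nat.land (Nat.shiftRight e 2) 255)))

def hnt (ok : Nat → Bool) (msk : Nat → Nat) (op s j : Nat) : Nat :=
  @Bool.rec (fun _ => Nat) s
    ((fun B => @Bool.rec (fun _ => Nat) (hint s B) (hintc s B) (Nat.ble 12 op)) (msk j)) (ok j)

/-- run `n` instructions of the program `p`; hints have `ws - 4` bits, `wm` is their mask -/
def run (ok : Nat → Bool) (msk : Nat → Nat) (wm ws : Nat) (n : Nat) : Nat → Nat → Nat :=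
  @Nat.rec (fun _ => Nat → Nat → Nat) (fun _ s => s) (fun _ ih p s => (fun op =>
    @Bool.rec (fun _ => Nat) (ih (Nat.shiftRight p 4) (dirf op s))
      (ih (Nat.shiftRight p ws) (frc (Nat.land (Nat.shiftRight p 4) wm) (fun j => hnt ok msk op s j)))
      (Nat.ble 11 op)) (Nat.land p 15)) n

def conflict (s : Nat) : Bool := @Bool.rec (fun _ => Bool) true false (Nat.beq (Nat.land (Nat.add s F) H) H)

/-- check of one lemma, given by the entry `e`, from the state `I` -/
def lem (ok : Nat → Bool) (msk : Nat → Nat) (wm ws I e : Nat) : Bool :=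
  (fun p => conflict (run ok msk wm ws (Nat.land p 4095) (Nat.shiftRight p 12)
    (Nat.xor I (Nat.land I (mk (Nat.shiftRight e 2)))))) (prgE e)

/-- check of the entries `i, …, i + n - 1` of the table `t` (only those of kind 0 have to be checked) -/
def blk (lib ax : Nat → Nat) (t : T) (wm ws I : Nat) (n : Nat) : Nat → Bool :=
  @Nat.rec (fun _ => Nat → Bool) (fun _ => true) (fun _ ih i =>
    @Bool.rec (fun _ => Bool) false (ih (Nat.succ i))
      ((fun e => @Bool.rec (fun _ => Bool) true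
        (lem (fun j => Nat.ble (Nat.succ j) i) (fun j => mkE lib ax (ent t j)) wm ws I e)
        (Nat.beq (Nat.land e 3) 0)) (ent t i))) n

/-- the state after running the program `p` from `I`, with hints below `i` -/
def rei (lib ax : Nat → Nat) (t : T) (wm ws i I p : Nat) : Nat :=
  run (fun j => Nat.ble (Nat.succ j) i) (fun j => mkE lib ax (ent t j)) wm ws (Nat.land p 65535)
    (Nat.shiftRight p 16) I

end Pool.Agent.S10.Chk
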