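import Pool.Agent.S10.Defs
import Pool.Agent.S10.Chk

/-!
# Meaning of the states and clauses of the checker
-/

namespace Pool.Agent.S10.Chk

/-- general theory: `τ v < 9`: label, `9 ≤ τ v < 14`: end of the path, `τ v = 14`: nothing is known about `v`. There
is a symmetric relation `use` without closed cycle which is the prescribed one at the vertices of type `< 14` -/
structure K (τ : ℕ → ℕ) : Prop where
  lt : ∀ v < 1024, τ v < 15
  ex : ∃ use : ℕ → ℕ → Prop, (∀ v < 1024, ∀ k < 10, use v k → use (v ^^^ 2 ^ k) k) ∧ ¬ HasCycle use ∧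
    ∀ v < 1024, τ v < 14 → ∀ k < 10, (use v k ↔ uses (τ v) k = true)

/-- all types are allowed by the state `s` -/
def Sat (τ : ℕ → ℕ) (s : ℕ) : Prop := ∀ v < 1024, s.testBit (16 * v + τ v) = true

/-- the top bit of every lane is zero -/
def Wf (s : ℕ) : Prop := ∀ v < 1024, s.testBit (16 * v + 15) = false

/-- the clause `B` holds for `τ` -/
def Cl (τ : ℕ → ℕ) (B : ℕ) : Prop := ∃ v < 1024, B.testBit (16 * v + τ v) = true

/-- the clause `B` holds in the general theory -/
def VG (B : ℕ) : Prop := ∀ τ, K τ → Cl τ B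

/-- no solution is compatible with the state `I` -/
def Bad (I : ℕ) : Prop := ∀ c w, Sol c w → ¬ Sat c I

/-- the lane `v` of `s` -/
def lane (s v : ℕ) : ℕ := s / 2 ^ (16 * v) % 2 ^ 16

end Pool.Agent.S10.Chk
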