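import Mathlib
import Pool.Agent.S10.Sem

/-!
# Arithmetic of lanes

Paper proofs. `testBit_lane`: `Nat.testBit_mod_two_pow`, `Nat.testBit_div_two_pow`. `lane_add`, `lane_mul`: with
`lane s 0 = s % 65536`, `lane s (v + 1) = lane (s / 65536) v` and induction on `v` for all `a`, `b`: if
`a % 65536 + b % 65536 < 65536` then `(a + b) / 65536 = a / 65536 + b / 65536`, and similarly for products.
The statements about the constants are finite: `decide +kernel` on `∀ v < 1024, …` (all definitions reduce to
arithmetic of literals in the kernel), written first for `lane`; the testBit versions follow by `testBit_lane`.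
-/

namespace Pool.Agent.S10.Chk

theorem testBit_lane (s v j : ℕ) : (lane s v).testBit j = (decide (j < 16) && s.testBit (16 * v + j)) := by
  unfold lane
  rw [Nat.testBit_mod_two_pow, Nat.testBit_div_two_pow, Nat.add_comm j (16 * v)]

theorem lane_lt (s v : ℕ) : lane s v < 65536 := by
  unfold lane
  exact Nat.mod_lt _ (by norm_num)

theorem lane_land (a b v : ℕ) : lane (a &&& b) v = lane a v &&& lane b v := by
  apply Nat.eq_of_testBit_eq
  intro j
  rw [Nat.testBit_and, testBit_lane, testBit_lane, testBit_lane, Nat.testBit_and]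
  cases decide (j < 16) <;> simp

theorem lane_lor (a b v : ℕ) : lane (a ||| b) v = lane a v ||| lane b v := by
  apply Nat.eq_of_testBit_eq
  intro j
  rw [Nat.testBit_or, testBit_lane, testBit_lane, testBit_lane, Nat.testBit_or]
  cases decide (j < 16) <;> simp

theorem lane_zero (s : ℕ) : lane s 0 = s % 65536 := by
  unfold lane
  rw [Nat.mul_zero, Nat.pow_zero, Nat.div_one]
  norm_num

theorem lane_succ (s v : ℕ) : lane s (v + 1) = lane (s / 65536) v := by
  unfold lane
  rw [Nat.div_div_eq_div_mul, Nat.mul_add, Nat.mul_one, Nat.add_comm, Nat.pow_add]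

/-- addition without carries -/
theorem lane_add (v : ℕ) : ∀ (a b : ℕ), (∀ u ≤ v, lane a u + lane b u < 65536) →
    lane (a + b) v = lane a v + lane b v := by
  induction v with
  | zero =>
    intro a b h
    have h0 := h 0 le_rfl
    rw [lane_zero, lane_zero] at h0
    rw [lane_zero, lane_zero, lane_zero]
    omega
  | succ v ih =>
    intro a b h
    have h0 := h 0 (Nat.zero_le _)
    rw [lane_zero, lane_zero] at h0
    have h1 : (a + b) / 65536 = a / 65536 + b / 65536 := by omega
    rw [lane_succ, lane_succ, lane_succ, h1]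
    refine ih _ _ fun u hu => ?_
    have h2 := h (u + 1) (Nat.succ_le_succ hu)
    rwa [lane_succ, lane_succ] at h2

/-- multiplication by a small number without carries -/
theorem lane_mul (c : ℕ) (v : ℕ) : ∀ (a : ℕ), (∀ u ≤ v, lane a u * c < 65536) →
    lane (a * c) v = lane a v * c := by
  have key : ∀ a : ℕ, a % 65536 * c < 65536 →
      a * c % 65536 = a % 65536 * c ∧ a * c / 65536 = a / 65536 * c := by
    intro a h
    have h1 : a * c = a % 65536 * c + 65536 * (a / 65536 * c) := by
      conv_lhs => rw [← Nat.mod_add_div a 65536]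
      ring
    constructor
    · rw [h1, Nat.add_mul_mod_self_left, Nat.mod_eq_of_lt h]
    · rw [h1, Nat.add_mul_div_left _ _ (by norm_num), Nat.div_eq_of_lt h, Nat.zero_add]
  induction v with
  | zero =>
    intro a h
    have h0 := h 0 le_rfl
    rw [lane_zero] at h0
    rw [lane_zero, lane_zero]
    exact (key a h0).1
  | succ v ih =>
    intro a h
    have h0 := h 0 (Nat.zero_le _)
    rw [lane_zero] at h0
    rw [lane_succ, lane_succ, (key a h0).2]
    refine ih _ fun u hu => ?_
    have h2 := h (u + 1) (Nat.succ_le_succ hu)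
    rwa [lane_succ] at h2

theorem lane_F : ∀ v < 1024, lane F v = 0x7FFF := by
  decide +kernel

theorem lane_H : ∀ v < 1024, lane H v = 0x8000 := by
  decide +kernel

private theorem H_lt : H < 2 ^ 16384 := by
  decide +kernel

/-- `H` has only the bits 15 of the lanes below 1024 -/
theorem testBit_H (i : ℕ) : H.testBit i = true ↔ i < 16384 ∧ i % 16 = 15 := by
  rcases Nat.lt_or_ge i 16384 with hi | hi
  · have h1 := testBit_lane H (i / 16) (i % 16)
    rw [Nat.div_add_mod, lane_H _ (by omega), decide_eq_true (Nat.mod_lt i (by norm_num)),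
      Bool.true_and] at h1
    rw [← h1]
    have h2 : ∀ j < 16, (Nat.testBit 0x8000 j = true ↔ j = 15) := by decide
    rw [h2 _ (Nat.mod_lt i (by norm_num))]
    exact ⟨fun h => ⟨hi, h⟩, fun h => h.2⟩
  · have h1 : H.testBit i = false :=
      Nat.testBit_lt_two_pow (lt_of_lt_of_le H_lt (Nat.pow_le_pow_right (by norm_num) hi))
    rw [h1]
    constructor
    · intro h
      exact absurd h (by simp)
    · intro h
      omega

/-- the indicator of the nonzero lanes -/
theorem lane_ind (t : ℕ) (ht : ∀ v < 1024, lane t v < 32768) : ∀ v < 1024,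
    lane ((t + F) &&& H) v = if lane t v = 0 then 0 else 0x8000 := by
  intro v hv
  have h1 : lane (t + F) v = lane t v + 0x7FFF := by
    rw [lane_add, lane_F v hv]
    intro u hu
    rw [lane_F u (by omega)]
    have := ht u (by omega)
    omega
  rw [lane_land, h1, lane_H v hv]
  have h2 := ht v hv
  have h3 : (0x8000 : ℕ) = 2 ^ 15 := by norm_num
  rw [h3, Nat.and_two_pow, Nat.testBit_eq_decide_div_mod_eq]
  by_cases h0 : lane t v = 0
  · rw [if_pos h0, h0]
    decide
  · rw [if_neg h0]
    have h4 : (lane t v + 0x7FFF) / 2 ^ 15 % 2 = 1 := by omega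
    rw [decide_eq_true h4]
    decide

/-- the same after the shift: bit `i` is set iff `i = 16 * v`, `v < 1024` and lane `v` of `t` is not zero -/
theorem testBit_ind (t : ℕ) (ht : ∀ v < 1024, lane t v < 32768) (i : ℕ) :
    (((t + F) &&& H) >>> 15).testBit i = true ↔ ∃ v < 1024, i = 16 * v ∧ lane t v ≠ 0 := by
  have key : ∀ v < 1024, (((t + F) &&& H).testBit (16 * v + 15) = true ↔ lane t v ≠ 0) := by
    intro v hv
    have h1 := testBit_lane ((t + F) &&& H) v 15
    rw [lane_ind t ht v hv, decide_eq_true (by norm_num : 15 < 16), Bool.true_and] at h1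
    rw [← h1]
    by_cases h0 : lane t v = 0
    · rw [if_pos h0]
      simp [h0]
    · rw [if_neg h0]
      refine ⟨fun _ => h0, fun _ => ?_⟩
      decide
  rw [Nat.testBit_shiftRight]
  constructor
  · intro h
    have h1 : H.testBit (15 + i) = true := by
      rw [Nat.testBit_and, Bool.and_eq_true] at h
      exact h.2
    rw [testBit_H] at h1
    refine ⟨i / 16, by omega, by omega, ?_⟩
    rw [← key _ (by omega)]
    have h2 : 16 * (i / 16) + 15 = 15 + i := by omega
    rw [h2]
    exact h
  · rintro ⟨v, hv, rfl, h⟩
    rw [Nat.add_comm 15]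
    exact (key v hv).2 h

end Pool.Agent.S10.Chk
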