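import Mathlib
import Pool.Agent.S10.Lane

/-!
# Permutations of lanes

`wm k` is the mask of the lanes `v < 1024` with bit `k` of `v` equal to zero. Paper proof of `testBit_w`: for
`k < 10`, `v < 1024`, `j < 16`: if bit `k` of `v` is 0, then `v ^^^ 2 ^ k = v + 2 ^ k` and the first part
`(m >>> (16 * 2 ^ k)) &&& wm k` has the bit `16 v + j + 16 * 2 ^ k` of `m` at `16 v + j`, the second part has there
a bit of `m &&& wm k` with a lane number whose bit `k` is 1 (or the place is smaller than the shift), hence 0.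
If bit `k` of `v` is 1, then `v ^^^ 2 ^ k = v - 2 ^ k` and the roles are exchanged.
-/

namespace Pool.Agent.S10.Chk

/-- the mask of the lanes whose number has bit `k` equal to zero -/
def wm (k : ℕ) : ℕ := ALL / (2 ^ (16 * 2 ^ k) + 1)

/-- closed form of the mask: `N` blocks of length `2 * a`, the lower half of each block is full -/
private def gm (a : ℕ) : ℕ → ℕ
  | 0 => 0
  | N + 1 => 2 ^ (2 * a) * gm a N + (2 ^ a - 1)

private theorem gm_mul (a N : ℕ) : (2 ^ a + 1) * gm a N + 1 = 2 ^ (2 * a * N) := by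
  induction N with
  | zero => simp [gm]
  | succ N ih =>
    have h1 : 1 ≤ 2 ^ a := Nat.one_le_two_pow
    obtain ⟨x, hx⟩ : ∃ x, 2 ^ a = x + 1 := ⟨2 ^ a - 1, by omega⟩
    have h2 : 2 ^ (2 * a * (N + 1)) = 2 ^ (2 * a) * 2 ^ (2 * a * N) := by
      rw [← pow_add]; congr 1; ring
    have h3 : 2 ^ (2 * a) = (x + 1) * (x + 1) := by
      rw [two_mul, pow_add, hx]
    rw [h2, ← ih]
    simp only [gm]
    rw [h3, hx, Nat.add_sub_cancel]
    ring

private theorem testBit_gm (a N : ℕ) (ha : 0 < a) (i : ℕ) :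
    (gm a N).testBit i = (decide (i < 2 * a * N) && decide ((i / a) % 2 = 0)) := by
  induction N generalizing i with
  | zero => simp [gm]
  | succ N ih =>
    have hlt : 2 ^ a - 1 < 2 ^ (2 * a) := by
      have h1 : 2 ^ a ≤ 2 ^ (2 * a) := Nat.pow_le_pow_right (by norm_num) (by omega)
      have h2 : 1 ≤ 2 ^ a := Nat.one_le_two_pow
      omega
    simp only [gm]
    rw [Nat.testBit_two_pow_mul_add _ hlt, Nat.testBit_two_pow_sub_one, ih]
    split_ifs with h
    · have h1 : i < 2 * a * (N + 1) := by nlinarith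
      rw [decide_eq_true h1, Bool.true_and]
      congr 1
      by_cases hi : i < a
      · simp [hi, Nat.div_eq_of_lt hi]
      · have : i / a = 1 := by
          rw [Nat.div_eq_iff ha]
          omega
        simp [hi, this]
    · have h2 : (i - 2 * a) / a % 2 = i / a % 2 := by
        obtain ⟨j, rfl⟩ : ∃ j, i = j + a * 2 := ⟨i - 2 * a, by omega⟩
        rw [show j + a * 2 - 2 * a = j by omega, Nat.add_mul_div_left _ _ ha]
        omega
      rw [h2]
      congr 1
      have h3 : (i - 2 * a < 2 * a * N) ↔ (i < 2 * a * (N + 1)) := by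
        rw [mul_add, mul_one]
        omega
      exact decide_eq_decide.2 h3

private theorem wm_eq (k : ℕ) (hk : k < 10) : wm k = gm (16 * 2 ^ k) (2 ^ (9 - k)) := by
  have h1 : 2 * (16 * 2 ^ k) * 2 ^ (9 - k) = 16384 := by
    have : 2 ^ k * 2 ^ (9 - k) = 512 := by
      rw [← pow_add, show k + (9 - k) = 9 by omega]
      norm_num
    calc 2 * (16 * 2 ^ k) * 2 ^ (9 - k) = 32 * (2 ^ k * 2 ^ (9 - k)) := by ring
      _ = 16384 := by rw [this]
  have h2 := gm_mul (16 * 2 ^ k) (2 ^ (9 - k))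
  rw [h1] at h2
  have h3 : ALL = (2 ^ (16 * 2 ^ k) + 1) * gm (16 * 2 ^ k) (2 ^ (9 - k)) := by
    have : ALL = 2 ^ 16384 - 1 := by decide +kernel
    rw [this, ← h2, Nat.add_sub_cancel]
  unfold wm
  rw [h3, Nat.mul_div_cancel_left _ (Nat.succ_pos _)]

private theorem div_div_mod (k i : ℕ) : (i / (16 * 2 ^ k)) % 2 = 0 ↔ (i / 16).testBit k = false := by
  rw [← Nat.div_div_eq_div_mul, ← Bool.not_eq_true, Nat.testBit_eq_decide_div_mod_eq, decide_eq_true_iff]
  omega

theorem testBit_wm (k : ℕ) (hk : k < 10) (i : ℕ) :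
    (wm k).testBit i = (decide (i < 16384) && !((i / 16).testBit k)) := by
  have h1 : 2 * (16 * 2 ^ k) * 2 ^ (9 - k) = 16384 := by
    have : 2 ^ k * 2 ^ (9 - k) = 512 := by
      rw [← pow_add, show k + (9 - k) = 9 by omega]
      norm_num
    calc 2 * (16 * 2 ^ k) * 2 ^ (9 - k) = 32 * (2 ^ k * 2 ^ (9 - k)) := by ring
      _ = 16384 := by rw [this]
  rw [wm_eq k hk, testBit_gm _ _ (by positivity), h1]
  congr 1
  have h2 := div_div_mod k i
  cases h : (i / 16).testBit k
  · simpa [h] using h2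
  · have h3 : ¬ (i / (16 * 2 ^ k) % 2 = 0) := by
      rw [h2, h]
      simp
    simpa using h3

/-- exchange of the lanes `v` and `v ^^^ 2 ^ k` -/
def wsw (k m : ℕ) : ℕ := ((m >>> (16 * 2 ^ k)) &&& wm k) ||| ((m &&& wm k) <<< (16 * 2 ^ k))

private theorem xor_two_pow_lt : ∀ k < 10, ∀ v < 1024, v ^^^ 2 ^ k < 1024 ∧
    ((v.testBit k = false ∧ v ^^^ 2 ^ k = v + 2 ^ k) ∨
      (v.testBit k = true ∧ 2 ^ k ≤ v ∧ v ^^^ 2 ^ k = v - 2 ^ k)) := by
  decide +kernel

theorem testBit_wsw (k : ℕ) (hk : k < 10) (m v j : ℕ) (hv : v < 1024) (hj : j < 16) :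
    (wsw k m).testBit (16 * v + j) = m.testBit (16 * (v ^^^ 2 ^ k) + j) := by
  have hi : (16 * v + j) / 16 = v := by omega
  have hlt : 16 * v + j < 16384 := by omega
  unfold wsw
  rw [Nat.testBit_or, Nat.testBit_and, Nat.testBit_shiftRight, Nat.testBit_shiftLeft, Nat.testBit_and,
    testBit_wm k hk, testBit_wm k hk, hi]
  obtain ⟨hx, ⟨h0, h1⟩ | ⟨h0, h2, h1⟩⟩ := xor_two_pow_lt k hk v hv
  · rw [h0, h1, decide_eq_true hlt]
    have h3 : (decide (16 * v + j ≥ 16 * 2 ^ k) && (m.testBit (16 * v + j - 16 * 2 ^ k) &&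
        (decide (16 * v + j - 16 * 2 ^ k < 16384) &&
          !((16 * v + j - 16 * 2 ^ k) / 16).testBit k))) = false := by
      by_cases hge : 16 * v + j ≥ 16 * 2 ^ k
      · have h4 : (16 * v + j - 16 * 2 ^ k) / 16 = v - 2 ^ k := by omega
        have h5 : 2 ^ k ≤ v := by omega
        obtain ⟨hx', ⟨h0', h1'⟩ | ⟨h0', h2', h1'⟩⟩ := xor_two_pow_lt k hk (v - 2 ^ k) (by omega)
        · have h6 : (v - 2 ^ k) ^^^ 2 ^ k = v := by rw [h1']; omega
          have h7 : v ^^^ 2 ^ k = v - 2 ^ k := by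
            conv_lhs => rw [← h6, Nat.xor_assoc, Nat.xor_self, Nat.xor_zero]
          have h8 : 0 < 2 ^ k := by positivity
          omega
        · rw [h4, h0']
          simp
      · simp [hge]
    rw [h3, Bool.or_false, Bool.not_false, Bool.and_true, Bool.and_true]
    congr 1
    ring
  · rw [h0, h1, decide_eq_true hlt]
    have h3 : 16 * v + j ≥ 16 * 2 ^ k := by omega
    have h4 : (16 * v + j - 16 * 2 ^ k) / 16 = v - 2 ^ k := by omega
    have h5 : (v - 2 ^ k).testBit k = false := by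
      obtain ⟨hx', ⟨h0', h1'⟩ | ⟨h0', h2', h1'⟩⟩ := xor_two_pow_lt k hk (v - 2 ^ k) (by omega)
      · exact h0'
      · have h6 : (v ^^^ 2 ^ k) ^^^ 2 ^ k = v := by rw [Nat.xor_assoc, Nat.xor_self, Nat.xor_zero]
        rw [h1, h1'] at h6
        have h8 : 0 < 2 ^ k := by positivity
        omega
    have h6 : 16 * v + j - 16 * 2 ^ k < 16384 := by omega
    rw [h4, h5, decide_eq_true h3, decide_eq_true h6]
    simp only [Bool.not_true, Bool.and_false, Bool.false_or, Bool.not_false, Bool.and_true, Bool.true_and]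
    congr 1
    omega

theorem w0_eq (m : ℕ) : w0 m = wsw 0 m := by
  have h : 16 * 2 ^ 0 = 16 := by norm_num
  have h2 : wm 0 = M0 := by decide +kernel
  unfold wsw
  rw [h2, h]
  rfl

theorem w1_eq (m : ℕ) : w1 m = wsw 1 m := by
  have h : 16 * 2 ^ 1 = 32 := by norm_num
  have h2 : wm 1 = M1 := by decide +kernel
  unfold wsw
  rw [h2, h]
  rfl

theorem w2_eq (m : ℕ) : w2 m = wsw 2 m := by
  have h : 16 * 2 ^ 2 = 64 := by norm_num
  have h2 : wm 2 = M2 := by decide +kernel
  unfold wsw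
  rw [h2, h]
  rfl

theorem w3_eq (m : ℕ) : w3 m = wsw 3 m := by
  have h : 16 * 2 ^ 3 = 128 := by norm_num
  have h2 : wm 3 = M3 := by decide +kernel
  unfold wsw
  rw [h2, h]
  rfl

theorem w4_eq (m : ℕ) : w4 m = wsw 4 m := by
  have h : 16 * 2 ^ 4 = 256 := by norm_num
  have h2 : wm 4 = M4 := by decide +kernel
  unfold wsw
  rw [h2, h]
  rfl

theorem w5_eq (m : ℕ) : w5 m = wsw 5 m := by
  have h : 16 * 2 ^ 5 = 512 := by norm_num
  have h2 : wm 5 = M5 := by decide +kernel
  unfold wsw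
  rw [h2, h]
  rfl

theorem w6_eq (m : ℕ) : w6 m = wsw 6 m := by
  have h : 16 * 2 ^ 6 = 1024 := by norm_num
  have h2 : wm 6 = M6 := by decide +kernel
  unfold wsw
  rw [h2, h]
  rfl

theorem w7_eq (m : ℕ) : w7 m = wsw 7 m := by
  have h : 16 * 2 ^ 7 = 2048 := by norm_num
  have h2 : wm 7 = M7 := by decide +kernel
  unfold wsw
  rw [h2, h]
  rfl

theorem w8_eq (m : ℕ) : w8 m = wsw 8 m := by
  have h : 16 * 2 ^ 8 = 4096 := by norm_num
  have h2 : wm 8 = M8 := by decide +kernel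
  unfold wsw
  rw [h2, h]
  rfl

theorem w9_eq (m : ℕ) : w9 m = wsw 9 m := by
  have h : 16 * 2 ^ 9 = 8192 := by norm_num
  have h2 : wm 9 = M9 := by decide +kernel
  unfold wsw
  rw [h2, h]
  rfl

private theorem transl_step (k : ℕ) (hk : k < 10) (f : ℕ → ℕ) (hf : ∀ m, f m = wsw k m) (t m v j : ℕ)
    (hv : v < 1024) (hj : j < 16) :
    (@Bool.rec (fun _ => Nat → Nat) (fun m => m) f (Nat.ble 1 (Nat.land t (2 ^ k))) m).testBit (16 * v + j) =
      m.testBit (16 * (v ^^^ (if t.testBit k then 2 ^ k else 0)) + j) := by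
  have h1 : Nat.ble 1 (Nat.land t (2 ^ k)) = t.testBit k := by
    have h2 : Nat.land t (2 ^ k) = (t.testBit k).toNat * 2 ^ k := Nat.and_two_pow t k
    rw [h2]
    cases t.testBit k
    · rw [Bool.toNat_false, Nat.zero_mul]
      rfl
    · have h3 : 1 ≤ 2 ^ k := Nat.one_le_two_pow
      rw [Bool.toNat_true, Nat.one_mul]
      exact Nat.ble_eq_true_of_le h3
  rw [h1]
  cases t.testBit k
  · simp
  · change (f m).testBit (16 * v + j) = _
    rw [hf, testBit_wsw k hk m v j hv hj]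
    simp

private theorem xor_if_lt (k : ℕ) (hk : k < 10) (v : ℕ) (hv : v < 1024) (b : Bool) :
    v ^^^ (if b = true then 2 ^ k else 0) < 1024 := by
  cases b
  · simpa using hv
  · simpa using (xor_two_pow_lt k hk v hv).1

private theorem sum_bits : ∀ t < 1024, (if t.testBit 9 then 2 ^ 9 else 0) ^^^ ((if t.testBit 8 then 2 ^ 8 else 0) ^^^
    ((if t.testBit 7 then 2 ^ 7 else 0) ^^^ ((if t.testBit 6 then 2 ^ 6 else 0) ^^^
    ((if t.testBit 5 then 2 ^ 5 else 0) ^^^ ((if t.testBit 4 then 2 ^ 4 else 0) ^^^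
    ((if t.testBit 3 then 2 ^ 3 else 0) ^^^ ((if t.testBit 2 then 2 ^ 2 else 0) ^^^
    ((if t.testBit 1 then 2 ^ 1 else 0) ^^^ (if t.testBit 0 then 2 ^ 0 else 0))))))))) = t := by
  decide +kernel

/-- translation: only the ten low bits of `t` matter -/
theorem testBit_transl (m t v j : ℕ) (hv : v < 1024) (hj : j < 16) :
    (transl m t).testBit (16 * v + j) = m.testBit (16 * (v ^^^ (t % 1024)) + j) := by
  unfold transl
  have hb : ∀ k < 10, (t % 1024).testBit k = t.testBit k := by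
    intro k hk
    rw [show 1024 = 2 ^ 10 by norm_num, Nat.testBit_mod_two_pow]
    simp [hk]
  have e9 := transl_step 9 (by norm_num) w9 w9_eq t
  have e8 := transl_step 8 (by norm_num) w8 w8_eq t
  have e7 := transl_step 7 (by norm_num) w7 w7_eq t
  have e6 := transl_step 6 (by norm_num) w6 w6_eq t
  have e5 := transl_step 5 (by norm_num) w5 w5_eq t
  have e4 := transl_step 4 (by norm_num) w4 w4_eq t
  have e3 := transl_step 3 (by norm_num) w3 w3_eq t
  have e2 := transl_step 2 (by norm_num) w2 w2_eq t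
  have e1 := transl_step 1 (by norm_num) w1 w1_eq t
  have e0 := transl_step 0 (by norm_num) w0 w0_eq t
  have l9 := xor_if_lt 9 (by norm_num) v hv (t.testBit 9)
  have l8 := xor_if_lt 8 (by norm_num) _ l9 (t.testBit 8)
  have l7 := xor_if_lt 7 (by norm_num) _ l8 (t.testBit 7)
  have l6 := xor_if_lt 6 (by norm_num) _ l7 (t.testBit 6)
  have l5 := xor_if_lt 5 (by norm_num) _ l6 (t.testBit 5)
  have l4 := xor_if_lt 4 (by norm_num) _ l5 (t.testBit 4)
  have l3 := xor_if_lt 3 (by norm_num) _ l4 (t.testBit 3)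
  have l2 := xor_if_lt 2 (by norm_num) _ l3 (t.testBit 2)
  have l1 := xor_if_lt 1 (by norm_num) _ l2 (t.testBit 1)
  refine (e9 _ v j hv hj).trans ?_
  refine (e8 _ _ j l9 hj).trans ?_
  refine (e7 _ _ j l8 hj).trans ?_
  refine (e6 _ _ j l7 hj).trans ?_
  refine (e5 _ _ j l6 hj).trans ?_
  refine (e4 _ _ j l5 hj).trans ?_
  refine (e3 _ _ j l4 hj).trans ?_
  refine (e2 _ _ j l3 hj).trans ?_
  refine (e1 _ _ j l2 hj).trans ?_
  refine (e0 _ _ j l1 hj).trans ?_
  have hs := sum_bits (t % 1024) (Nat.mod_lt _ (by norm_num))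
  simp only [hb 9 (by norm_num), hb 8 (by norm_num), hb 7 (by norm_num), hb 6 (by norm_num),
    hb 5 (by norm_num), hb 4 (by norm_num), hb 3 (by norm_num), hb 2 (by norm_num),
    hb 1 (by norm_num), hb 0 (by norm_num)] at hs
  rw [← hs]
  simp only [Nat.xor_assoc]

end Pool.Agent.S10.Chk
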