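import Mathlib
import Pool.Agent.S10.Swap

/-!
# Translations; clauses from closed walks

`K_transl`: the relation `fun v k => use (v ^^^ t) k` works; a cycle of it is translated by `t` (`(v ^^^ 2 ^ k) ^^^ t =
(v ^^^ t) ^^^ 2 ^ k`, `Nat.xor_lt_two_pow`). `VG_transl`: `testBit_transl` and `K_transl` with `t % 1024`.
`VG_ALL`: `ALL` has all the bits below 16384. `VG_cutm`: let `τ` with `K τ` and suppose that `cutm q` is false for
`τ`: no bit `16 v + τ v` of it is set. Then `cutm q` is not `ALL`, so the walk is admissible. Induction on `n` for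
`cutl n b0 x v b acc` (`v < 1024`, `b < 10`): if the result is false for `τ`, then `acc` is false for `τ`, and there are
`n` steps: directions `d 0, e 0, d 1, e 1, …` below 10 and vertices `v = v 0, v 1, …, v n = 0`,
`v (i + 1) = v i ^^^ 2 ^ d i ^^^ 2 ^ e i`, with `d i ≠ e i`, `{e (i - 1), d i} = {τ (v i), τ (v i) + 1}` (where
`e (-1) = b`, `e (n - 1) = b0`): indeed the bit `16 v + τ v` of `(0x7FFF ^^^ 2 ^ l) <<< (16 v)` is zero only for
`τ v = l` (as `τ v < 15`). So the directions `e (i - 1)` and `d i` are used at `v i` and distinct, by symmetry they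
are used at the neighbours, and for the whole walk (`v = 0`, `b = b0`, at least one pair) this is a cycle of
length `2 n` in the sense of `HasCycle`, a contradiction.
-/

namespace Pool.Agent.S10.Chk

private theorem xlt {a b : ℕ} (ha : a < 1024) (hb : b < 1024) : a ^^^ b < 1024 := by
  have : (1024 : ℕ) = 2 ^ 10 := rfl
  rw [this] at *
  exact Nat.xor_lt_two_pow ha hb

private theorem pow_lt' {k : ℕ} (hk : k < 10) : 2 ^ k < 1024 := by
  have : (1024 : ℕ) = 2 ^ 10 := rfl
  rw [this]
  exact Nat.pow_lt_pow_right (by norm_num) hk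

theorem K_transl {τ : ℕ → ℕ} (h : K τ) (t : ℕ) (ht : t < 1024) : K fun v => τ (v ^^^ t) := by
  obtain ⟨hlt, use, hs, hc, hu⟩ := h
  refine ⟨fun v hv => hlt _ (xlt hv ht), fun v k => use (v ^^^ t) k, ?_, ?_, ?_⟩
  · intro v hv k hk huse
    have := hs (v ^^^ t) (xlt hv ht) k hk huse
    rw [Nat.xor_right_comm] at this
    exact this
  · rintro ⟨m, f, d, hm, h1, h2, h3, h4⟩
    refine hc ⟨m, fun i => f i ^^^ t, d, hm, ?_, ?_, h3, h4⟩
    · intro i hi
      obtain ⟨a1, a2, a3, a4⟩ := h1 i hi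
      refine ⟨xlt a1 ht, a2, a3, ?_⟩
      simp only [a4]
      rw [Nat.xor_right_comm]
    · simp only [h2]
  · intro v hv hτ k hk
    exact hu _ (xlt hv ht) hτ k hk

theorem VG_transl {B : ℕ} (h : VG B) (t : ℕ) : VG (transl B t) := by
  intro τ hτ
  have ht : t % 1024 < 1024 := Nat.mod_lt _ (by norm_num)
  obtain ⟨v, hv, hb⟩ := h _ (K_transl hτ (t % 1024) ht)
  refine ⟨v ^^^ (t % 1024), xlt hv ht, ?_⟩
  have hlt := hτ.lt _ (xlt hv ht)
  rw [testBit_transl _ _ _ _ (xlt hv ht) (by omega), Nat.xor_assoc, Nat.xor_self, Nat.xor_zero]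
  exact hb

private theorem testBit_ALL (i : ℕ) : ALL.testBit i = decide (i < 16384) := by
  have key : ∀ n, (Nat.sub (Nat.pow 2 n) 1).testBit i = decide (i < n) :=
    fun n => Nat.testBit_two_pow_sub_one n i
  delta ALL
  rw [key]

theorem VG_ALL : VG ALL := by
  intro τ hτ
  refine ⟨0, by norm_num, ?_⟩
  have := hτ.lt 0 (by norm_num)
  rw [testBit_ALL]
  simp only [decide_eq_true_eq]
  omega

private theorem br_true (x y : ℕ) : br true x y = x := rfl

private theorem br_false (x y : ℕ) : br false x y = y := rfl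

private theorem cutl_succ (n b0 x v b acc : ℕ) : cutl (n + 1) b0 x v b acc =
    br (Nat.ble (x &&& 15) 9) (br (Nat.ble ((x >>> 4) &&& 15) 9)
      (br (Nat.beq (x &&& 15) ((x >>> 4) &&& 15)) ALL
        (br (Nat.beq (x &&& 15) (Nat.succ b))
          (cutl n b0 (x >>> 8) (v ^^^ ((1 <<< (x &&& 15)) ^^^ (1 <<< ((x >>> 4) &&& 15))))
            ((x >>> 4) &&& 15) (acc ||| ((0x7FFF ^^^ (1 <<< b)) <<< (v <<< 4))))
          (br (Nat.beq b (Nat.succ (x &&& 15)))
            (cutl n b0 (x >>> 8) (v ^^^ ((1 <<< (x &&& 15)) ^^^ (1 <<< ((x >>> 4) &&& 15))))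
              ((x >>> 4) &&& 15) (acc ||| ((0x7FFF ^^^ (1 <<< (x &&& 15))) <<< (v <<< 4)))) ALL)))
        ALL) ALL := rfl

private theorem cutl_zero (b0 x v b acc : ℕ) : cutl 0 b0 x v b acc =
    br (Nat.beq v 0) (br (Nat.beq b b0) acc ALL) ALL := rfl

/-- the clause `B` is false for `τ` -/
private def Fa (τ : ℕ → ℕ) (B : ℕ) : Prop := ∀ v < 1024, B.testBit (16 * v + τ v) = false

private theorem not_Fa_ALL {τ : ℕ → ℕ} (h : ∀ v < 1024, τ v < 15) : ¬ Fa τ ALL := by
  intro hf
  have h0 := hf 0 (by norm_num)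
  have := h 0 (by norm_num)
  rw [testBit_ALL] at h0
  simp only [decide_eq_false_iff_not] at h0
  omega

private theorem Fa_lor {τ : ℕ → ℕ} {a b : ℕ} (h : Fa τ (a ||| b)) : Fa τ a ∧ Fa τ b := by
  constructor
  · intro v hv
    have := h v hv
    rw [Nat.testBit_lor, Bool.or_eq_false_iff] at this
    exact this.1
  · intro v hv
    have := h v hv
    rw [Nat.testBit_lor, Bool.or_eq_false_iff] at this
    exact this.2

private theorem Fa_shift {τ : ℕ → ℕ} (hlt : ∀ v < 1024, τ v < 15) {l v : ℕ} (hv : v < 1024)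
    (h : Fa τ ((0x7FFF ^^^ (1 <<< l)) <<< (v <<< 4))) : τ v = l := by
  have h1 := h v hv
  have h2 : v <<< 4 = 16 * v := by rw [Nat.shiftLeft_eq]; omega
  rw [h2, Nat.testBit_shiftLeft, Nat.add_sub_cancel_left, Nat.testBit_xor] at h1
  have h3 : (0x7FFF : ℕ) = 2 ^ 15 - 1 := rfl
  have h4 := hlt v hv
  rw [h3, Nat.testBit_two_pow_sub_one, Nat.one_shiftLeft, Nat.testBit_two_pow] at h1
  simp only [ge_iff_le, Nat.le_add_right, decide_true, Bool.true_and, h4] at h1
  have : decide (l = τ v) = true := by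
    revert h1
    cases decide (l = τ v) <;> simp
  exact (of_decide_eq_true this).symm

/-- a walk of `n` pairs of steps from `v`, with the direction `b` before it, to the vertex `0` and the last
direction `b0` -/
private def Wk (use : ℕ → ℕ → Prop) (b0 n v b : ℕ) : Prop :=
  ∃ f g : ℕ → ℕ, f 0 = v ∧ g 0 = b ∧ f (2 * n) = 0 ∧ g (2 * n) = b0 ∧
    (∀ i < 2 * n, f i < 1024 ∧ g (i + 1) < 10 ∧ f (i + 1) = f i ^^^ 2 ^ g (i + 1) ∧ g (i + 1) ≠ g i) ∧
    ∀ i < n, use (f (2 * i)) (g (2 * i)) ∧ use (f (2 * i)) (g (2 * i + 1))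

private theorem Wk_cons {use : ℕ → ℕ → Prop} {b0 n v b d e : ℕ} (hv : v < 1024) (hd : d < 10)
    (he : e < 10) (hde : d ≠ e) (hbd : d ≠ b) (hb : use v b) (hd' : use v d)
    (h : Wk use b0 n (v ^^^ (2 ^ d ^^^ 2 ^ e)) e) : Wk use b0 (n + 1) v b := by
  obtain ⟨f, g, hf0, hg0, hfn, hgn, h1, h2⟩ := h
  refine ⟨fun i => match i with | 0 => v | 1 => v ^^^ 2 ^ d | i + 2 => f i,
    fun i => match i with | 0 => b | 1 => d | i + 2 => g i, rfl, rfl, hfn, hgn, ?_, ?_⟩
  · intro i hi
    match i, hi with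
    | 0, _ => exact ⟨hv, hd, rfl, hbd⟩
    | 1, _ =>
      refine ⟨xlt hv (pow_lt' hd), ?_, ?_, ?_⟩
      · show g 0 < 10
        rw [hg0]; exact he
      · show f 0 = (v ^^^ 2 ^ d) ^^^ 2 ^ g 0
        rw [hf0, hg0, Nat.xor_assoc]
      · show g 0 ≠ d
        rw [hg0]; exact hde.symm
    | i + 2, hi => exact h1 i (by omega)
  · intro i hi
    match i, hi with
    | 0, _ => exact ⟨hb, hd'⟩
    | i + 1, hi => exact h2 i (by omega)

private theorem uses_mem {t k : ℕ} (ht : t < 10) (h : k = t ∨ k = t + 1) (h9 : t < 9) :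
    uses t k = true := by
  unfold uses
  rw [if_pos h9]
  rcases h with rfl | rfl <;> simp

private theorem cutl_walk {τ : ℕ → ℕ} (hlt : ∀ v < 1024, τ v < 15) {use : ℕ → ℕ → Prop}
    (hu : ∀ v < 1024, τ v < 14 → ∀ k < 10, (use v k ↔ uses (τ v) k = true)) (n : ℕ) :
    ∀ b0 x v b acc, v < 1024 → b < 10 → Fa τ (cutl n b0 x v b acc) →
      Fa τ acc ∧ Wk use b0 n v b := by
  induction n with
  | zero =>
    intro b0 x v b acc hv hb h
    rw [cutl_zero] at h
    rcases hv0 : Nat.beq v 0 with _ | _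
    · rw [hv0, br_false] at h
      exact absurd h (not_Fa_ALL hlt)
    · rw [hv0, br_true] at h
      rcases hbb : Nat.beq b b0 with _ | _
      · rw [hbb, br_false] at h
        exact absurd h (not_Fa_ALL hlt)
      · rw [hbb, br_true] at h
        have e1 : v = 0 := Nat.eq_of_beq_eq_true hv0
        have e2 : b = b0 := Nat.eq_of_beq_eq_true hbb
        subst e1 e2
        exact ⟨h, fun _ => 0, fun _ => b, rfl, rfl, rfl, rfl, fun i hi => absurd hi (by omega),
          fun i hi => absurd hi (by omega)⟩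
  | succ n ih =>
    intro b0 x v b acc hv hb h
    rw [cutl_succ] at h
    generalize x &&& 15 = d at h
    generalize (x >>> 4) &&& 15 = e at h
    rcases hd : Nat.ble d 9 with _ | _
    · rw [hd, br_false] at h
      exact absurd h (not_Fa_ALL hlt)
    rcases he : Nat.ble e 9 with _ | _
    · rw [hd, br_true, he, br_false] at h
      exact absurd h (not_Fa_ALL hlt)
    rcases hde : Nat.beq d e with _ | _
    swap
    · rw [hd, br_true, he, br_true, hde, br_true] at h
      exact absurd h (not_Fa_ALL hlt)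
    rw [hd, br_true, he, br_true, hde, br_false] at h
    have hd9 : d < 10 := Nat.lt_succ_of_le (Nat.le_of_ble_eq_true hd)
    have he9 : e < 10 := Nat.lt_succ_of_le (Nat.le_of_ble_eq_true he)
    have hde' : d ≠ e := Nat.ne_of_beq_eq_false hde
    rw [Nat.one_shiftLeft, Nat.one_shiftLeft] at h
    have hv' : v ^^^ (2 ^ d ^^^ 2 ^ e) < 1024 := xlt hv (xlt (pow_lt' hd9) (pow_lt' he9))
    rcases h1 : Nat.beq d (Nat.succ b) with _ | _
    · rw [h1, br_false] at h
      rcases h2 : Nat.beq b (Nat.succ d) with _ | _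
      · rw [h2, br_false] at h
        exact absurd h (not_Fa_ALL hlt)
      · rw [h2, br_true] at h
        have hbd : b = d + 1 := Nat.eq_of_beq_eq_true h2
        obtain ⟨h3, h4⟩ := ih _ _ _ _ _ hv' he9 h
        obtain ⟨h5, h6⟩ := Fa_lor h3
        rw [← Nat.one_shiftLeft] at h6
        have h7 := Fa_shift hlt hv h6
        have hu1 : use v d := (hu v hv (by omega) d hd9).2 (uses_mem (by omega) (Or.inl h7.symm)
          (by omega))
        have hu2 : use v b := (hu v hv (by omega) b hb).2 (uses_mem (by omega)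
          (Or.inr (by omega)) (by omega))
        exact ⟨h5, Wk_cons hv hd9 he9 hde' (by omega) hu2 hu1 h4⟩
    · rw [h1, br_true] at h
      have hbd : d = b + 1 := Nat.eq_of_beq_eq_true h1
      obtain ⟨h3, h4⟩ := ih _ _ _ _ _ hv' he9 h
      obtain ⟨h5, h6⟩ := Fa_lor h3
      have h7 := Fa_shift hlt hv h6
      have hu1 : use v b := (hu v hv (by omega) b hb).2 (uses_mem (by omega) (Or.inl h7.symm)
        (by omega))
      have hu2 : use v d := (hu v hv (by omega) d hd9).2 (uses_mem (by omega)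
        (Or.inr (by omega)) (by omega))
      exact ⟨h5, Wk_cons hv hd9 he9 hde' (by omega) hu1 hu2 h4⟩

private theorem cutl_ge {τ : ℕ → ℕ} (hlt : ∀ v < 1024, τ v < 15) (n : ℕ) :
    ∀ b0 x v b acc, 10 ≤ b0 → (0 < n ∨ b < 10) → ¬ Fa τ (cutl n b0 x v b acc) := by
  induction n with
  | zero =>
    intro b0 x v b acc h0 hb h
    rw [cutl_zero] at h
    rcases hv0 : Nat.beq v 0 with _ | _
    · rw [hv0, br_false] at h
      exact absurd h (not_Fa_ALL hlt)
    · rw [hv0, br_true] at h
      rcases hbb : Nat.beq b b0 with _ | _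
      · rw [hbb, br_false] at h
        exact absurd h (not_Fa_ALL hlt)
      · have e2 : b = b0 := Nat.eq_of_beq_eq_true hbb
        omega
  | succ n ih =>
    intro b0 x v b acc h0 hb h
    rw [cutl_succ] at h
    generalize x &&& 15 = d at h
    generalize (x >>> 4) &&& 15 = e at h
    rcases hd : Nat.ble d 9 with _ | _
    · rw [hd, br_false] at h
      exact absurd h (not_Fa_ALL hlt)
    rcases he : Nat.ble e 9 with _ | _
    · rw [hd, br_true, he, br_false] at h
      exact absurd h (not_Fa_ALL hlt)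
    have he9 : e < 10 := Nat.lt_succ_of_le (Nat.le_of_ble_eq_true he)
    rcases hde : Nat.beq d e with _ | _
    swap
    · rw [hd, br_true, he, br_true, hde, br_true] at h
      exact absurd h (not_Fa_ALL hlt)
    rw [hd, br_true, he, br_true, hde, br_false] at h
    rcases h1 : Nat.beq d (Nat.succ b) with _ | _
    · rw [h1, br_false] at h
      rcases h2 : Nat.beq b (Nat.succ d) with _ | _
      · rw [h2, br_false] at h
        exact absurd h (not_Fa_ALL hlt)
      · rw [h2, br_true] at h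
        exact ih _ _ _ _ _ h0 (Or.inr he9) h
    · rw [h1, br_true] at h
      exact ih _ _ _ _ _ h0 (Or.inr he9) h

private theorem no_walk {use : ℕ → ℕ → Prop}
    (hs : ∀ v < 1024, ∀ k < 10, use v k → use (v ^^^ 2 ^ k) k) (hc : ¬ HasCycle use) {b0 n : ℕ}
    (hn : 0 < n) (h : Wk use b0 n 0 b0) : False := by
  obtain ⟨f, g, hf0, hg0, hfn, hgn, h1, h2⟩ := h
  -- the arrival directions are used
  have harr : ∀ i ≤ n, use (f (2 * i)) (g (2 * i)) := by
    intro i hi
    rcases Nat.lt_or_eq_of_le hi with hi | rfl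
    · exact (h2 i hi).1
    · have := (h2 0 hn).1
      rw [Nat.mul_zero, hf0, hg0] at this
      rw [hfn, hgn]
      exact this
  have hlt' : ∀ i ≤ 2 * n, f i < 1024 := by
    intro i hi
    rcases Nat.lt_or_eq_of_le hi with hi | rfl
    · exact (h1 i hi).1
    · rw [hfn]; norm_num
  refine hc ⟨2 * n, f, fun i => if i = 2 * n then g 1 else g (i + 1), by omega, ?_, ?_, ?_, ?_⟩
  · intro i hi
    obtain ⟨a1, a2, a3, a4⟩ := h1 i hi
    beta_reduce
    rw [if_neg hi.ne]
    refine ⟨a1, a2, ?_, a3⟩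
    obtain ⟨j, rfl | rfl⟩ : ∃ j, i = 2 * j ∨ i = 2 * j + 1 := ⟨i / 2, by omega⟩
    · exact (h2 j (by omega)).2
    · have hj := harr (j + 1) (by omega)
      have hlt'' := hlt' (2 * (j + 1)) (by omega)
      have e1 : 2 * (j + 1) = 2 * j + 1 + 1 := by ring
      rw [e1] at hj hlt''
      have := hs _ hlt'' _ a2 hj
      rwa [a3, Nat.xor_assoc, Nat.xor_self, Nat.xor_zero] at this
  · rw [hfn, hf0]
  · simp only [if_true]
    rw [if_neg (by omega)]
  · intro i hi
    beta_reduce
    rw [if_neg hi.ne]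
    by_cases hi' : i + 1 = 2 * n
    · rw [if_pos hi', hi', hgn, ← hg0]
      exact (h1 0 (by omega)).2.2.2
    · rw [if_neg hi']
      exact (h1 (i + 1) (by omega)).2.2.2

theorem VG_cutm (q : ℕ) : VG (cutm q) := by
  intro τ hτ
  by_contra hcl
  have hf : Fa τ (cutm q) := by
    intro v hv
    by_contra hb
    exact hcl ⟨v, hv, by simpa using hb⟩
  obtain ⟨hlt, use, hs, hc, hu⟩ := hτ
  have e : cutm q = br (Nat.beq (q &&& 255) 0) ALL
    (cutl (q &&& 255) ((q >>> 8) &&& 15) (q >>> 12) 0 ((q >>> 8) &&& 15) 0) := rfl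
  rw [e] at hf
  rcases h0 : Nat.beq (q &&& 255) 0 with _ | _
  swap
  · rw [h0, br_true] at hf
    exact not_Fa_ALL hlt hf
  rw [h0, br_false] at hf
  have hn : 0 < q &&& 255 := Nat.pos_of_ne_zero (Nat.ne_of_beq_eq_false h0)
  by_cases hb : (q >>> 8) &&& 15 < 10
  · exact no_walk hs hc hn (cutl_walk hlt hu _ _ _ _ _ _ (by norm_num) hb hf).2
  · exact cutl_ge hlt _ _ _ _ _ _ (by omega) (Or.inl hn) hf

/-- a solution is a model of the general theory -/
theorem K_of_sol {c : ℕ → ℕ} {w : ℕ} (h : Sol c w) : K c := by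
  refine ⟨fun v hv => ?_, fun v k => uses (c v) k = true, ?_, h.acyc, fun v hv _ k hk => Iff.rfl⟩
  · by_cases h0 : v = 0
    · subst h0
      have := h.end0.2
      omega
    · by_cases hw : v = w
      · subst hw
        have := h.endw.2
        omega
      · have := h.inner v hv h0 hw
        omega
  · intro v hv k hk huse
    rw [← h.edge v hv k hk]
    exact huse

end Pool.Agent.S10.Chk
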