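import Mathlib
import Pool.Agent.S10.Lane

/-!
# Soundness of the hints and of the conflict test

`hint s B`: `X = s &&& B`, `Z = ((X + F) &&& H) >>> 15` has the bits `16 v` of the lanes with `X` nonzero
(`testBit_ind`; the lanes of `X` are `< 2 ^ 15` because of `Wf s`). If `Z &&& (Z - 1) = 0` then `Z` has at most one
bit. By `Cl τ B` and `Sat τ s` the bit `16 v + τ v` of `X` is set for some `v`, so `Z = 2 ^ (16 * v)`,
`Z * 65535` is the full lane `v` and the result is `s` with the lane `v` replaced by the lane of `X`.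
`hintc s B`: `s &&& B` is not zero, so the result is `s`. `conflict s`: all lanes of `s` are nonzero
(bit `τ v`), so `(s + F) &&& H = H` by `lane_ind`.
-/

namespace Pool.Agent.S10.Chk

attribute [local irreducible] F H ALL ones

private theorem land_eq (a b : ℕ) : Nat.land a b = a &&& b := rfl
private theorem add_eq (a b : ℕ) : Nat.add a b = a + b := rfl
private theorem sub_eq (a b : ℕ) : Nat.sub a b = a - b := rfl
private theorem mul_eq (a b : ℕ) : Nat.mul a b = a * b := rfl
private theorem shr_eq (a b : ℕ) : Nat.shiftRight a b = a >>> b := rfl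

private theorem bit_unique {Z i j : ℕ} (hZ : Z &&& (Z - 1) = 0) (hi : Z.testBit i = true)
    (hij : i < j) : Z.testBit j = false := by
  by_contra hj
  rw [Bool.not_eq_false] at hj
  have hpos : 0 < Z := by
    rcases Nat.eq_zero_or_pos Z with h | h
    · rw [h, Nat.zero_testBit] at hi
      exact absurd hi (by decide)
    · exact h
  have hnd : ¬ 2 ^ j ∣ Z := by
    rintro ⟨q, hq⟩
    rw [hq, Nat.testBit_two_pow_mul] at hi
    have : ¬ (i ≥ j) := by omega
    simp [this] at hi
  have h1 : (Z - 1) / 2 ^ j = Z / 2 ^ j := by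
    obtain ⟨y, rfl⟩ : ∃ y, Z = y + 1 := ⟨Z - 1, by omega⟩
    rw [Nat.succ_div_of_not_dvd hnd, Nat.add_sub_cancel]
  have h2 : (Z - 1).testBit j = true := by
    rw [Nat.testBit_eq_decide_div_mod_eq, h1, ← Nat.testBit_eq_decide_div_mod_eq]
    exact hj
  have h3 : (Z &&& (Z - 1)).testBit j = true := by
    rw [Nat.testBit_and, hj, h2]
    rfl
  rw [hZ, Nat.zero_testBit] at h3
  exact absurd h3 (by decide)

private theorem eq_two_pow {Z i : ℕ} (hZ : Z &&& (Z - 1) = 0) (hi : Z.testBit i = true) :
    Z = 2 ^ i := by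
  apply Nat.eq_of_testBit_eq
  intro j
  rw [Nat.testBit_two_pow]
  rcases lt_trichotomy i j with h | h | h
  · rw [bit_unique hZ hi h]
    simp [h.ne]
  · rw [← h, hi]
    simp
  · have h2 : Z.testBit j = false := by
      by_contra h3
      rw [Bool.not_eq_false] at h3
      have h4 := bit_unique hZ h3 h
      rw [hi] at h4
      exact absurd h4 (by decide)
    rw [h2]
    simp [h.ne']

private theorem testBit_of_lane_zero {X v j : ℕ} (hj : j < 16) (h : lane X v = 0) :
    X.testBit (16 * v + j) = false := by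
  have h1 := testBit_lane X v j
  rw [h, Nat.zero_testBit] at h1
  simpa [hj] using h1.symm

private theorem lane_ne_zero {X v j : ℕ} (hj : j < 16) (h : X.testBit (16 * v + j) = true) :
    lane X v ≠ 0 := by
  intro h1
  rw [testBit_of_lane_zero hj h1] at h
  exact absurd h (by decide)

private theorem lane_small {s : ℕ} (v : ℕ) (hw : s.testBit (16 * v + 15) = false) :
    lane s v < 32768 := by
  have h : lane s v < 2 ^ 15 := by
    apply Nat.lt_pow_two_of_testBit
    intro i hi
    rw [testBit_lane]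
    rcases Nat.lt_or_ge i 16 with h | h
    · have h2 : i = 15 := by omega
      rw [h2, hw]
      simp
    · have h2 : ¬ i < 16 := by omega
      simp [h2]
  simpa using h

private theorem testBit_full (v k : ℕ) :
    (2 ^ (16 * v) * 65535).testBit k = decide (16 * v ≤ k ∧ k < 16 * v + 16) := by
  rw [Nat.testBit_two_pow_mul, show (65535 : ℕ) = 2 ^ 16 - 1 by norm_num,
    Nat.testBit_two_pow_sub_one]
  by_cases h : 16 * v ≤ k
  · by_cases h2 : k < 16 * v + 16
    · have h3 : k - 16 * v < 16 := by omega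
      simp [h, h2, h3]
    · have h3 : ¬ (k - 16 * v < 16) := by omega
      simp [h, h2, h3]
  · simp [h]

private theorem hint3_sound {τ : ℕ → ℕ} (hτ : ∀ v < 1024, τ v < 15) (s B : ℕ) (hs : Sat τ s)
    (hw : Wf s) {v : ℕ} (hB : B.testBit (16 * v + τ v) = true)
    (hX : ∀ u < 1024, u ≠ v → lane (s &&& B) u = 0) :
    Sat τ (hint3 s (s &&& B) (2 ^ (16 * v) * 65535)) ∧
      Wf (hint3 s (s &&& B) (2 ^ (16 * v) * 65535)) := by
  have key : ∀ k, (hint3 s (s &&& B) (2 ^ (16 * v) * 65535)).testBit k =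
      (s.testBit k ^^ ((s.testBit k && decide (16 * v ≤ k ∧ k < 16 * v + 16)) ^^
        (s.testBit k && B.testBit k))) := by
    intro k
    have h0 : hint3 s (s &&& B) (2 ^ (16 * v) * 65535) =
      s ^^^ ((s &&& (2 ^ (16 * v) * 65535)) ^^^ (s &&& B)) := rfl
    rw [h0, Nat.testBit_xor, Nat.testBit_xor, Nat.testBit_and, Nat.testBit_and, testBit_full]
  constructor
  · intro u hu
    rw [key, hs u hu]
    by_cases huv : u = v
    · subst huv
      have h1 := hτ u hu
      have h2 : 16 * u ≤ 16 * u + τ u ∧ 16 * u + τ u < 16 * u + 16 := by omega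
      rw [hB]
      simp [h2]
    · have h1 := hτ u hu
      have h2 : ¬ (16 * v ≤ 16 * u + τ u ∧ 16 * u + τ u < 16 * v + 16) := by omega
      have h3 := testBit_of_lane_zero (j := τ u) (by omega) (hX u hu huv)
      rw [Nat.testBit_and, hs u hu] at h3
      rw [decide_eq_false h2, h3]
      rfl
  · intro u hu
    rw [key, hw u hu]
    simp

private theorem hint_main {τ : ℕ → ℕ} (hτ : ∀ v < 1024, τ v < 15) (s B : ℕ) (hB : Cl τ B)
    (hs : Sat τ s) (hw : Wf s) (Z : ℕ)
    (hind : ∀ i, Z.testBit i = true ↔ ∃ v < 1024, i = 16 * v ∧ lane (s &&& B) v ≠ 0) :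
    Sat τ (hint2 s (s &&& B) Z) ∧ Wf (hint2 s (s &&& B) Z) := by
  obtain ⟨v, hv, hvB⟩ := hB
  unfold hint2
  rw [land_eq, sub_eq, mul_eq]
  generalize hb : Nat.beq (Z &&& (Z - 1)) 0 = b
  cases b
  · exact ⟨hs, hw⟩
  · have hb2 : Z &&& (Z - 1) = 0 := Nat.eq_of_beq_eq_true hb
    have hbit : (s &&& B).testBit (16 * v + τ v) = true := by
      rw [Nat.testBit_and, hs v hv, hvB]
      rfl
    have hv15 := hτ v hv
    have h1 : Z.testBit (16 * v) = true :=
      (hind _).2 ⟨v, hv, rfl, lane_ne_zero (by omega) hbit⟩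
    have h2 := eq_two_pow hb2 h1
    change Sat τ (hint3 s (s &&& B) (Z * 65535)) ∧ Wf (hint3 s (s &&& B) (Z * 65535))
    rw [h2]
    refine hint3_sound hτ s B hs hw hvB ?_
    intro u hu huv
    by_contra h3
    have h4 := (hind (16 * u)).2 ⟨u, hu, rfl, h3⟩
    rw [h2, Nat.testBit_two_pow, decide_eq_true_eq] at h4
    omega

private theorem hint_def : hint = fun s B => hint1 s (Nat.land s B) := by
  delta hint
  exact Eq.refl _

private theorem hint1_def : hint1 = fun s X =>
    hint2 s X (Nat.shiftRight (Nat.land (Nat.add X F) H) 15) := by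
  delta hint1
  exact Eq.refl _

private theorem hint_gen (g g1 : ℕ → ℕ → ℕ) (f h : ℕ) (e : g = fun s B => g1 s (Nat.land s B))
    (e1 : g1 = fun s X => hint2 s X (Nat.shiftRight (Nat.land (Nat.add X f) h) 15))
    {τ : ℕ → ℕ} (hτ : ∀ v < 1024, τ v < 15) (s B : ℕ) (hB : Cl τ B) (hs : Sat τ s) (hw : Wf s)
    (hind : ∀ i, (((s &&& B) + f &&& h) >>> 15).testBit i = true ↔
      ∃ v < 1024, i = 16 * v ∧ lane (s &&& B) v ≠ 0) :
    Sat τ (g s B) ∧ Wf (g s B) := by
  have h1 : g s B = hint2 s (s &&& B) (((s &&& B) + f &&& h) >>> 15) := by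
    rw [e, e1]
    rfl
  rw [h1]
  exact hint_main hτ s B hB hs hw _ hind

theorem hint_sound {τ : ℕ → ℕ} (hτ : ∀ v < 1024, τ v < 15) (s B : ℕ) (hB : Cl τ B) (hs : Sat τ s) (hw : Wf s) :
    Sat τ (hint s B) ∧ Wf (hint s B) := by
  have hX : ∀ u < 1024, lane (s &&& B) u < 32768 := by
    intro u hu
    apply lane_small
    rw [Nat.testBit_and, hw u hu]
    rfl
  exact hint_gen hint hint1 F H hint_def hint1_def hτ s B hB hs hw (testBit_ind (s &&& B) hX)

theorem hintc_sound {τ : ℕ → ℕ} (s B : ℕ) (hB : Cl τ B) (hs : Sat τ s) (hw : Wf s) :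
    Sat τ (hintc s B) ∧ Wf (hintc s B) := by
  obtain ⟨v, hv, hvB⟩ := hB
  have h0 : hintc s B = @Bool.rec (fun _ => Nat) s 0 (Nat.beq (s &&& B) 0) := rfl
  rw [h0]
  generalize hb : Nat.beq (s &&& B) 0 = b
  cases b
  · exact ⟨hs, hw⟩
  · exfalso
    have hb2 : s &&& B = 0 := Nat.eq_of_beq_eq_true hb
    have hbit : (s &&& B).testBit (16 * v + τ v) = true := by
      rw [Nat.testBit_and, hs v hv, hvB]
      rfl
    rw [hb2, Nat.zero_testBit] at hbit
    exact absurd hbit (by decide)

private theorem conflict_gen (g : ℕ → Bool) (f h : ℕ)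
    (hg : g = fun s => @Bool.rec (fun _ => Bool) true false (Nat.beq (Nat.land (Nat.add s f) h) h))
    (s : ℕ) (hs : s + f &&& h = h) : g s = false := by
  subst hg
  change @Bool.rec (fun _ => Bool) true false (Nat.beq (s + f &&& h) h) = false
  rw [hs, Nat.beq_refl]

private theorem conflict_def : conflict = fun s => @Bool.rec (fun _ => Bool) true false
    (Nat.beq (Nat.land (Nat.add s F) H) H) := by
  delta conflict
  exact Eq.refl _

theorem conflict_sound {τ : ℕ → ℕ} (hτ : ∀ v < 1024, τ v < 15) (s : ℕ) (hs : Sat τ s) (hw : Wf s) :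
    conflict s = false := by
  have hX : ∀ u < 1024, lane s u < 32768 := fun u hu => lane_small u (hw u hu)
  have hind := lane_ind s hX
  have h1 : s + F &&& H = H := by
    apply Nat.eq_of_testBit_eq
    intro i
    by_cases hi : H.testBit i = true
    · obtain ⟨h2, h3⟩ := (testBit_H i).1 hi
      have h4 : i = 16 * (i / 16) + 15 := by omega
      have h5 : i / 16 < 1024 := by omega
      have h6 : lane s (i / 16) ≠ 0 := lane_ne_zero (j := τ (i / 16))
        (by have := hτ _ h5; omega) (hs _ h5)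
      have h7 := hind _ h5
      rw [if_neg h6] at h7
      have h8 := testBit_lane (s + F &&& H) (i / 16) 15
      rw [h7, ← h4] at h8
      have h9 : (Nat.testBit 32768 15) = true := by decide
      rw [h9, decide_eq_true (by norm_num : 15 < 16), Bool.true_and] at h8
      rw [hi, ← h8]
    · rw [Bool.not_eq_true] at hi
      rw [Nat.testBit_and, hi, Bool.and_false]
  exact conflict_gen conflict F H conflict_def s h1

end Pool.Agent.S10.Chk
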