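import Mathlib
import Pool.Agent.S10.Swap

/-!
# Soundness of the direction steps

`stp k s` is the step in direction `k`: with `t = wsw k s` (lane `v` of `t` is lane `v ^^^ 2 ^ k` of `s`) the lane `v`
of the result is the lane of `s` and-ed with (`pw k` if lane `v` of `t` meets `pw k`) or-ed with (`nw k` if it meets
`nw k`). Here `pw k` is the set of the types that may use the direction `k`, `nw k` the set of those that may not
use it; type 14 is in both. Soundness: `u = v ^^^ 2 ^ k < 1024`, `τ u` is in lane `v` of `t`. If `use v k` holds (the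
relation of `K`), then `use u k` (symmetry, for `v` and for `u`), so `τ u` and `τ v` are both in `pw k`; otherwise
both are in `nw k`. Products: `Y * p` with `Y = Z <<< 15`, the lanes of `Z` being 0 or 1 (`testBit_ind`), hence
`(Y * p) >>> 15 = Z * p`, whose lane `v` is `p` or `0` by `lane_mul`; `Nat.shiftRight_or_distrib`.
-/

namespace Pool.Agent.S10.Chk

/-- types that may use the direction `k` -/
def pw (k : ℕ) : ℕ := ∑ x ∈ Finset.range 15, if x = 14 ∨ uses x k = true then 2 ^ x else 0

/-- types that may not use the direction `k` -/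
def nw (k : ℕ) : ℕ := ∑ x ∈ Finset.range 15, if x = 14 ∨ uses x k = false then 2 ^ x else 0

/-- the step in direction `k` -/
def stp (k s : ℕ) : ℕ :=
  s &&& ((((((wsw k s &&& ones * pw k) + F) &&& H) * pw k) |||
    ((((wsw k s &&& ones * nw k) + F) &&& H) * nw k)) >>> 15)

private theorem pw_vals : pw 0 = 0x4001 ∧ pw 1 = 0x4203 ∧ pw 2 = 0x4006 ∧ pw 3 = 0x440c ∧ pw 4 = 0x4018 ∧
    pw 5 = 0x4830 ∧ pw 6 = 0x4060 ∧ pw 7 = 0x50c0 ∧ pw 8 = 0x4180 ∧ pw 9 = 0x6100 := by
  decide +kernel

private theorem nw_vals : nw 0 = 0x7ffe ∧ nw 1 = 0x7dfc ∧ nw 2 = 0x7ff9 ∧ nw 3 = 0x7bf3 ∧ nw 4 = 0x7fe7 ∧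
    nw 5 = 0x77cf ∧ nw 6 = 0x7f9f ∧ nw 7 = 0x6f3f ∧ nw 8 = 0x7e7f ∧ nw 9 = 0x5eff := by
  decide +kernel

private theorem s0_eq (s : ℕ) : s0 s = stp 0 s := by
  unfold stp
  rw [← w0_eq, pw_vals.1, nw_vals.1]
  unfold s0 w0 P0 N0
  generalize ones = o
  generalize F = f
  generalize H = h
  generalize M0 = m
  rfl

private theorem s1_eq (s : ℕ) : s1 s = stp 1 s := by
  unfold stp
  rw [← w1_eq, pw_vals.2.1, nw_vals.2.1]
  unfold s1 w1 P1 N1
  generalize ones = o
  generalize F = f
  generalize H = h
  generalize M1 = m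
  rfl

private theorem s2_eq (s : ℕ) : s2 s = stp 2 s := by
  unfold stp
  rw [← w2_eq, pw_vals.2.2.1, nw_vals.2.2.1]
  unfold s2 w2 P2 N2
  generalize ones = o
  generalize F = f
  generalize H = h
  generalize M2 = m
  rfl

private theorem s3_eq (s : ℕ) : s3 s = stp 3 s := by
  unfold stp
  rw [← w3_eq, pw_vals.2.2.2.1, nw_vals.2.2.2.1]
  unfold s3 w3 P3 N3
  generalize ones = o
  generalize F = f
  generalize H = h
  generalize M3 = m
  rfl

private theorem s4_eq (s : ℕ) : s4 s = stp 4 s := by
  unfold stp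
  rw [← w4_eq, pw_vals.2.2.2.2.1, nw_vals.2.2.2.2.1]
  unfold s4 w4 P4 N4
  generalize ones = o
  generalize F = f
  generalize H = h
  generalize M4 = m
  rfl

private theorem s5_eq (s : ℕ) : s5 s = stp 5 s := by
  unfold stp
  rw [← w5_eq, pw_vals.2.2.2.2.2.1, nw_vals.2.2.2.2.2.1]
  unfold s5 w5 P5 N5
  generalize ones = o
  generalize F = f
  generalize H = h
  generalize M5 = m
  rfl

private theorem s6_eq (s : ℕ) : s6 s = stp 6 s := by
  unfold stp
  rw [← w6_eq, pw_vals.2.2.2.2.2.2.1, nw_vals.2.2.2.2.2.2.1]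
  unfold s6 w6 P6 N6
  generalize ones = o
  generalize F = f
  generalize H = h
  generalize M6 = m
  rfl

private theorem s7_eq (s : ℕ) : s7 s = stp 7 s := by
  unfold stp
  rw [← w7_eq, pw_vals.2.2.2.2.2.2.2.1, nw_vals.2.2.2.2.2.2.2.1]
  unfold s7 w7 P7 N7
  generalize ones = o
  generalize F = f
  generalize H = h
  generalize M7 = m
  rfl

private theorem s8_eq (s : ℕ) : s8 s = stp 8 s := by
  unfold stp
  rw [← w8_eq, pw_vals.2.2.2.2.2.2.2.2.1, nw_vals.2.2.2.2.2.2.2.2.1]
  unfold s8 w8 P8 N8
  generalize ones = o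
  generalize F = f
  generalize H = h
  generalize M8 = m
  rfl

private theorem s9_eq (s : ℕ) : s9 s = stp 9 s := by
  unfold stp
  rw [← w9_eq, pw_vals.2.2.2.2.2.2.2.2.2, nw_vals.2.2.2.2.2.2.2.2.2]
  unfold s9 w9 P9 N9
  generalize ones = o
  generalize F = f
  generalize H = h
  generalize M9 = m
  rfl

/-- every opcode is a step in a direction below 10 -/
theorem dirf_eq (op : ℕ) : ∃ k < 10, ∀ s, dirf op s = stp k s := by
  unfold dirf
  cases Nat.ble 6 op
  · cases Nat.ble 4 op
    · cases Nat.ble 3 op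
      · cases Nat.ble 2 op
        · exact ⟨0, by norm_num, s0_eq⟩
        · exact ⟨1, by norm_num, s1_eq⟩
      · exact ⟨2, by norm_num, s2_eq⟩
    · cases Nat.ble 5 op
      · exact ⟨3, by norm_num, s3_eq⟩
      · exact ⟨4, by norm_num, s4_eq⟩
  · cases Nat.ble 9 op
    · cases Nat.ble 7 op
      · exact ⟨5, by norm_num, s5_eq⟩
      · cases Nat.ble 8 op
        · exact ⟨6, by norm_num, s6_eq⟩
        · exact ⟨7, by norm_num, s7_eq⟩
    · cases Nat.ble 10 op
      · exact ⟨8, by norm_num, s8_eq⟩
      · exact ⟨9, by norm_num, s9_eq⟩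

theorem stp_sub (k s i : ℕ) (h : (stp k s).testBit i = true) : s.testBit i = true := by
  unfold stp at h
  rw [Nat.testBit_land, Bool.and_eq_true] at h
  exact h.1

private theorem pw_bit : ∀ k < 10, ∀ x < 15, (pw k).testBit x = decide (x = 14 ∨ uses x k = true) := by
  decide +kernel

private theorem nw_bit : ∀ k < 10, ∀ x < 15, (nw k).testBit x = decide (x = 14 ∨ uses x k = false) := by
  decide +kernel

private theorem pw_lt : ∀ k < 10, pw k < 32768 := by
  decide +kernel

private theorem nw_lt : ∀ k < 10, nw k < 32768 := by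
  decide +kernel

private theorem lane_ones : ∀ v < 1024, lane ones v = 1 := by
  decide +kernel

private theorem lane_ones_mul (p v : ℕ) (hp : p < 65536) (hv : v < 1024) : lane (ones * p) v = p := by
  rw [lane_mul p v ones (fun u hu => by rw [lane_ones u (by omega)]; omega), lane_ones v hv, one_mul]

/-- the key fact about the products -/
private theorem mul_bit (t p v x : ℕ) (ht : ∀ v < 1024, lane t v < 32768) (hp : p < 65536)
    (hv : v < 1024) (hx : x < 16) (h0 : lane t v ≠ 0) (hpx : p.testBit x = true) :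
    (((((t + F) &&& H) * p) >>> 15).testBit (16 * v + x)) = true := by
  set A := (t + F) &&& H with hA
  set Z := A >>> 15 with hZ
  have hAZ : A = Z <<< 15 := by
    apply Nat.eq_of_testBit_eq
    intro i
    rw [Nat.testBit_shiftLeft, hZ, Nat.testBit_shiftRight]
    by_cases hi : 15 ≤ i
    · rw [Nat.add_sub_cancel' hi]
      simp [hi]
    · have : A.testBit i = false := by
        rw [hA, Nat.testBit_land]
        have : H.testBit i = false := by
          rw [Bool.eq_false_iff]
          intro h
          have := (testBit_H i).1 h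
          omega
        rw [this, Bool.and_false]
      rw [this]
      simp [hi]
  have hprod : (A * p) >>> 15 = Z * p := by
    rw [hAZ, Nat.shiftLeft_eq, Nat.shiftRight_eq_div_pow]
    rw [show Z * 2 ^ 15 * p = Z * p * 2 ^ 15 by ring]
    exact Nat.mul_div_cancel _ (by norm_num)
  rw [hprod]
  have hlaneZ : ∀ u < 1024, lane Z u = if lane t u = 0 then 0 else 1 := by
    intro u hu
    apply Nat.eq_of_testBit_eq
    intro j
    rw [testBit_lane]
    by_cases hj : j < 16
    · have hind := testBit_ind t ht (16 * u + j)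
      rw [← hA, ← hZ] at hind
      by_cases hj0 : j = 0
      · subst hj0
        by_cases hl : lane t u = 0
        · rw [if_pos hl]
          have : Z.testBit (16 * u + 0) = false := by
            rw [Bool.eq_false_iff]
            intro h
            obtain ⟨v', hv', he, hne⟩ := hind.1 h
            have : v' = u := by omega
            subst this
            exact hne hl
          simp only [this, Bool.and_false, Nat.zero_testBit]
        · rw [if_neg hl]
          have : Z.testBit (16 * u + 0) = true := hind.2 ⟨u, hu, rfl, hl⟩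
          rw [this]
          decide
      · have : Z.testBit (16 * u + j) = false := by
          rw [Bool.eq_false_iff]
          intro h
          obtain ⟨v', hv', he, hne⟩ := hind.1 h
          omega
        rw [this, Bool.and_false]
        split_ifs
        · rw [Nat.zero_testBit]
        · symm
          rw [Bool.eq_false_iff]
          intro h
          exact hj0 (Nat.testBit_one_eq_true_iff_self_eq_zero.1 h)
    · have h16 : (2 : ℕ) ≤ 2 ^ j := by
        calc (2 : ℕ) = 2 ^ 1 := by norm_num
          _ ≤ 2 ^ j := Nat.pow_le_pow_right (by norm_num) (by omega)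
      simp only [hj, decide_false, Bool.false_and]
      symm
      apply Nat.testBit_eq_false_of_lt
      split_ifs <;> omega
  have hmul : lane (Z * p) v = lane Z v * p := by
    refine lane_mul p v Z (fun u hu => ?_)
    rw [hlaneZ u (by omega)]
    split_ifs <;> omega
  have h := testBit_lane (Z * p) v x
  rw [hmul, hlaneZ v hv, if_neg h0, one_mul, hpx] at h
  simp only [hx, decide_true, Bool.true_and] at h
  exact h.symm

private theorem lane_and_lt (a p v : ℕ) (hp : p < 32768) (hv : v < 1024) :
    lane (a &&& ones * p) v < 32768 := by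
  rw [lane_land, lane_ones_mul p v (by omega) hv]
  exact lt_of_le_of_lt Nat.and_le_right hp

private theorem lane_ne (a p v x : ℕ) (hp : p < 32768) (hv : v < 1024) (hx : x < 16)
    (ha : a.testBit (16 * v + x) = true) (hpx : p.testBit x = true) :
    lane (a &&& ones * p) v ≠ 0 := by
  intro h
  rw [lane_land, lane_ones_mul p v (by omega) hv] at h
  have h1 : (lane a v &&& p).testBit x = true := by
    rw [Nat.testBit_land, testBit_lane, ha, hpx]
    simp [hx]
  rw [h, Nat.zero_testBit] at h1
  exact absurd h1 (by decide)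

theorem stp_sat {τ : ℕ → ℕ} (hK : K τ) (k : ℕ) (hk : k < 10) (s : ℕ) (hs : Sat τ s) (hw : Wf s) :
    Sat τ (stp k s) := by
  intro v hv
  have hu : v ^^^ 2 ^ k < 1024 := by
    have h1 : v < 2 ^ 10 := hv
    have h2 : 2 ^ k < 2 ^ 10 := Nat.pow_lt_pow_right (by norm_num) hk
    exact Nat.xor_lt_two_pow h1 h2
  have hxx : (v ^^^ 2 ^ k) ^^^ 2 ^ k = v := by
    rw [Nat.xor_assoc, Nat.xor_self, Nat.xor_zero]
  obtain ⟨use, hsym, -, huse⟩ := hK.ex
  have htv := hK.lt v hv
  have htu := hK.lt _ hu
  have hsw : (wsw k s).testBit (16 * v + τ (v ^^^ 2 ^ k)) = true := by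
    rw [testBit_wsw k hk s v _ hv (by omega)]
    exact hs _ hu
  have huse' : ∀ u < 1024, use u k → (pw k).testBit (τ u) = true := by
    intro u hu h
    rw [pw_bit k hk (τ u) (hK.lt u hu), decide_eq_true_eq]
    by_cases h14 : τ u = 14
    · exact Or.inl h14
    · exact Or.inr ((huse u hu (by have := hK.lt u hu; omega) k hk).1 h)
  have huse'' : ∀ u < 1024, ¬ use u k → (nw k).testBit (τ u) = true := by
    intro u hu h
    rw [nw_bit k hk (τ u) (hK.lt u hu), decide_eq_true_eq]
    by_cases h14 : τ u = 14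
    · exact Or.inl h14
    · refine Or.inr ?_
      rw [Bool.eq_false_iff]
      exact fun h' => h ((huse u hu (by have := hK.lt u hu; omega) k hk).2 h')
  unfold stp
  rw [Nat.testBit_land, Bool.and_eq_true]
  refine ⟨hs v hv, ?_⟩
  rw [Nat.shiftRight_or_distrib, Nat.testBit_lor, Bool.or_eq_true]
  by_cases h : use v k
  · left
    have hu' : use (v ^^^ 2 ^ k) k := hsym v hv k hk h
    exact mul_bit _ _ v (τ v) (fun v' hv' => lane_and_lt _ _ v' (pw_lt k hk) hv')
      (by have := pw_lt k hk; omega) hv (by omega)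
      (lane_ne _ _ v _ (pw_lt k hk) hv (by omega) hsw (huse' _ hu hu')) (huse' v hv h)
  · right
    have hu' : ¬ use (v ^^^ 2 ^ k) k := by
      intro h'
      have := hsym _ hu k hk h'
      rw [hxx] at this
      exact h this
    exact mul_bit _ _ v (τ v) (fun v' hv' => lane_and_lt _ _ v' (nw_lt k hk) hv')
      (by have := nw_lt k hk; omega) hv (by omega)
      (lane_ne _ _ v _ (nw_lt k hk) hv (by omega) hsw (huse'' _ hu hu')) (huse'' v hv h)

/-- soundness of all the direction steps -/
theorem dirf_sound {τ : ℕ → ℕ} (hK : K τ) (op s : ℕ) (hs : Sat τ s) (hw : Wf s) :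
    Sat τ (dirf op s) ∧ Wf (dirf op s) := by
  obtain ⟨k, hk, h⟩ := dirf_eq op
  rw [h]
  refine ⟨stp_sat hK k hk s hs hw, ?_⟩
  intro v hv
  rw [Bool.eq_false_iff]
  intro h'
  have h1 := stp_sub k s _ h'
  rw [hw v hv] at h1
  exact absurd h1 (by decide)

end Pool.Agent.S10.Chk
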