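import Mathlib
import Pool.Agent.S10.Step
import Pool.Agent.S10.Hint
import Pool.Agent.S10.Cut

/-!
# Soundness of programs, lemmas and blocks

`run_sound`: induction on `n` for all `p`, `s`; `frc n k = k n` (cases on `n`); an instruction with opcode `≥ 11` is
`hnt`: if `ok j = false` the state is unchanged, otherwise `hint_sound` or `hintc_sound` with `h j`; the other
opcodes are `dirf_sound`. `lem_sound`: if `Cl τ (mk (e >>> 2))` is false, then every bit `16 v + τ v` of
`mk (e >>> 2)` is zero, so the initial state `I ^^^ (I &&& mk …)` still satisfies `Sat`, by `run_sound` also the last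
state, which contradicts `conflict_sound`. `blk_sound`: induction on `n` for all `lo`: the entry `lo` is of kind 0
(then `mkE … = mk (e >>> 2)` and `lem_sound`), of kind 1 (`hlib` and `VG_transl`) or an axiom (`hax`).
-/

namespace Pool.Agent.S10.Chk

theorem frc_eq (n : ℕ) (k : ℕ → ℕ) : frc n k = k n := by
  cases n <;> rfl

private theorem hnt_sound {τ : ℕ → ℕ} (hτ : ∀ v < 1024, τ v < 15) (ok : ℕ → Bool) (msk : ℕ → ℕ)
    (h : ∀ j, ok j = true → Cl τ (msk j)) (op s j : ℕ) (hs : Sat τ s) (hw : Wf s) :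
    Sat τ (hnt ok msk op s j) ∧ Wf (hnt ok msk op s j) := by
  unfold hnt
  cases hj : ok j
  · exact ⟨hs, hw⟩
  · have hB := h j hj
    cases Nat.ble 12 op
    · exact hint_sound hτ s _ hB hs hw
    · exact hintc_sound s _ hB hs hw

theorem run_sound {τ : ℕ → ℕ} (hK : K τ) (ok : ℕ → Bool) (msk : ℕ → ℕ) (h : ∀ j, ok j = true → Cl τ (msk j))
    (wm ws : ℕ) (n : ℕ) : ∀ p s : ℕ, Sat τ s → Wf s →
    Sat τ (run ok msk wm ws n p s) ∧ Wf (run ok msk wm ws n p s) := by
  induction n with
  | zero => exact fun p s hs hw => ⟨hs, hw⟩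
  | succ n ih =>
    intro p s hs hw
    have e : run ok msk wm ws (n + 1) p s = @Bool.rec (fun _ => Nat)
        (run ok msk wm ws n (Nat.shiftRight p 4) (dirf (Nat.land p 15) s))
        (run ok msk wm ws n (Nat.shiftRight p ws)
          (frc (Nat.land (Nat.shiftRight p 4) wm) (fun j => hnt ok msk (Nat.land p 15) s j)))
        (Nat.ble 11 (Nat.land p 15)) := rfl
    rw [e, frc_eq]
    cases Nat.ble 11 (Nat.land p 15)
    · obtain ⟨h1, h2⟩ := dirf_sound hK (Nat.land p 15) s hs hw
      exact ih _ _ h1 h2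
    · obtain ⟨h1, h2⟩ := hnt_sound hK.lt ok msk h (Nat.land p 15) s
        (Nat.land (Nat.shiftRight p 4) wm) hs hw
      exact ih _ _ h1 h2

theorem lem_sound {τ : ℕ → ℕ} (hK : K τ) (ok : ℕ → Bool) (msk : ℕ → ℕ) (h : ∀ j, ok j = true → Cl τ (msk j))
    (wm ws I e : ℕ) (hI : Sat τ I) (hW : Wf I) (hl : lem ok msk wm ws I e = true) : Cl τ (mk (e >>> 2)) := by
  by_contra hcl
  have hB : ∀ v < 1024, (mk (e >>> 2)).testBit (16 * v + τ v) = false := by
    intro v hv
    by_contra hc
    exact hcl ⟨v, hv, by simpa using hc⟩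
  have h1 : Sat τ (I ^^^ (I &&& mk (e >>> 2))) := by
    intro v hv
    rw [Nat.testBit_xor, Nat.testBit_and, hB v hv, hI v hv]
    rfl
  have h2 : Wf (I ^^^ (I &&& mk (e >>> 2))) := by
    intro v hv
    rw [Nat.testBit_xor, Nat.testBit_and, hW v hv]
    rfl
  obtain ⟨h3, h4⟩ := run_sound hK ok msk h wm ws (Nat.land (prgE e) 4095)
    (Nat.shiftRight (prgE e) 12) _ h1 h2
  have h5 := conflict_sound hK.lt _ h3 h4
  have h6 : lem ok msk wm ws I e = conflict (run ok msk wm ws (Nat.land (prgE e) 4095)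
    (Nat.shiftRight (prgE e) 12) (I ^^^ (I &&& mk (e >>> 2)))) := rfl
  rw [h6, h5] at hl
  exact absurd hl (by decide)

private theorem mkE_sound {τ : ℕ → ℕ} (hK : K τ) (lib ax : ℕ → ℕ) (hlib : ∀ q, VG (lib q))
    (hax : ∀ q, Cl τ (ax q)) (e : ℕ) (h0 : Nat.land e 3 = 0 → Cl τ (mk (e >>> 2))) :
    Cl τ (mkE lib ax e) := by
  unfold mkE
  rcases he : Nat.land e 3 with _ | _ | d
  · exact h0 he
  · change Cl τ (frc (Nat.shiftRight e 12)
      (fun q => transl (lib q) (Nat.land (Nat.shiftRight e 2) 1023)))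
    rw [frc_eq]
    exact VG_transl (hlib _) _ τ hK
  · exact hax _

theorem blk_sound {τ : ℕ → ℕ} (hK : K τ) (lib ax : ℕ → ℕ) (hlib : ∀ q, VG (lib q)) (hax : ∀ q, Cl τ (ax q))
    (t : T) (wm ws I : ℕ) (hI : Sat τ I) (hW : Wf I) (n : ℕ) : ∀ lo : ℕ,
    (∀ j < lo, Cl τ (mkE lib ax (ent t j))) → blk lib ax t wm ws I n lo = true →
    ∀ j < lo + n, Cl τ (mkE lib ax (ent t j)) := by
  induction n with
  | zero => exact fun lo hlo _ j hj => hlo j hj
  | succ n ih =>
    intro lo hlo hb j hj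
    have e : blk lib ax t wm ws I (n + 1) lo = @Bool.rec (fun _ => Bool) false
        (blk lib ax t wm ws I n (Nat.succ lo))
        (@Bool.rec (fun _ => Bool) true
          (lem (fun j => Nat.ble (Nat.succ j) lo) (fun j => mkE lib ax (ent t j)) wm ws I (ent t lo))
          (Nat.beq (Nat.land (ent t lo) 3) 0)) := rfl
    rw [e] at hb
    cases hin : (@Bool.rec (fun _ => Bool) true
          (lem (fun j => Nat.ble (Nat.succ j) lo) (fun j => mkE lib ax (ent t j)) wm ws I (ent t lo))
          (Nat.beq (Nat.land (ent t lo) 3) 0) : Bool) with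
    | false =>
      rw [hin] at hb
      have hb' : false = true := hb
      exact absurd hb' Bool.false_ne_true
    | true =>
      rw [hin] at hb
      have hb' : blk lib ax t wm ws I n (Nat.succ lo) = true := hb
      refine ih (lo + 1) (fun i hi => ?_) hb' j (by omega)
      rcases Nat.lt_succ_iff_lt_or_eq.1 hi with hi | rfl
      · exact hlo i hi
      · refine mkE_sound hK lib ax hlib hax _ fun h0 => ?_
        rw [h0] at hin
        have hin' : lem (fun j => Nat.ble (Nat.succ j) i) (fun j => mkE lib ax (ent t j)) wm ws I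
          (ent t i) = true := hin
        exact lem_sound hK _ _ (fun j hj => hlo j (Nat.le_of_ble_eq_true hj)) wm ws I _ hI hW hin'

theorem rei_sound {τ : ℕ → ℕ} (hK : K τ) (lib ax : ℕ → ℕ) (t : T) (wm ws i I p : ℕ) (hI : Sat τ I) (hW : Wf I)
    (hprev : ∀ j < i, Cl τ (mkE lib ax (ent t j))) :
    Sat τ (rei lib ax t wm ws i I p) ∧ Wf (rei lib ax t wm ws i I p) := by
  exact run_sound hK _ _ (fun j hj => hprev j (Nat.le_of_ble_eq_true hj)) wm ws _ _ _ hI hW

end Pool.Agent.S10.Chk
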