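import Mathlib
import Pool.Agent.S10.Cut

/-!
# Top level: the axioms of the solution, the initial state, splitting

`ax_sound`: let `Sol c w`. `q % 4 = 0`: some vertex of `W16` is an end, namely `w` (type 9..13). `q % 4 = 1`: two
different vertices `u`, `u'`, both not 0, are not both ends (`Sol.inner`: the ends are `0` and `w` only), so one of
them has a type `< 9`. Otherwise: `u ≠ 0` and a type `x`: if `c 0 > x` and `c u` is the type of an end then `u = w`
and `c u ≥ c 0 > x`. In the cases where the arguments are not admissible `ax q = ALL`, which has all the bits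
`16 v + j`, `v < 1024`, `j < 16`.
`bad_split`: the type of `v` is in `S` or in `0x7FFF ^^^ S`; `testBit_xor`, `testBit_and`, `testBit_shiftLeft`
(with `c v < 15`, from `K_of_sol`).
-/

namespace Pool.Agent.S10.Chk

noncomputable section

/-- all vertices of `W16` with the types of ends -/
def AX0 : ℕ := (W16.map fun w => Nat.shiftLeft 0x3E00 (16 * w)).sum

/-- the axioms, see above -/
def ax (q : ℕ) : ℕ :=
  br (Nat.beq (Nat.land q 3) 0) AX0
    (br (Nat.beq (Nat.land q 3) 1)
      (br (Nat.beq (Nat.land (Nat.shiftRight q 2) 1023) 0) ALL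
        (br (Nat.beq (Nat.land (Nat.shiftRight q 12) 1023) 0) ALL
          (br (Nat.beq (Nat.land (Nat.shiftRight q 2) 1023) (Nat.land (Nat.shiftRight q 12) 1023)) ALL
            (Nat.lor (Nat.shiftLeft 0x1FF (Nat.shiftLeft (Nat.land (Nat.shiftRight q 2) 1023) 4))
              (Nat.shiftLeft 0x1FF (Nat.shiftLeft (Nat.land (Nat.shiftRight q 12) 1023) 4))))))
      (br (Nat.beq (Nat.land (Nat.shiftRight q 2) 1023) 0) ALL
        (Nat.lor (Nat.sub (Nat.shiftLeft 2 (Nat.land (Nat.shiftRight q 12) 15)) 1)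
          (Nat.shiftLeft (Nat.lor 0x1FF (Nat.xor 0xFFFF
              (Nat.land 0xFFFF (Nat.sub (Nat.shiftLeft 2 (Nat.land (Nat.shiftRight q 12) 15)) 1))))
            (Nat.shiftLeft (Nat.land (Nat.shiftRight q 2) 1023) 4)))))

private lemma top_AX0_lane : ∀ w ∈ W16, lane AX0 w = 0x3E00 := by
  decide +kernel

private lemma top_bits1 : ∀ j < 14, 9 ≤ j → (0x3E00 : ℕ).testBit j = true := by
  decide

private lemma top_bits2 : ∀ j < 9, (0x1FF : ℕ).testBit j = true := by
  decide

private lemma top_bits3 : ∀ j < 16, (0xFFFF : ℕ).testBit j = true := by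
  decide

private lemma top_bits4 : ∀ j < 15, (0x7FFF : ℕ).testBit j = true := by
  decide

private lemma top_W16 : ∀ w ∈ W16, w < 1024 := by
  decide

private lemma top_lane_bit {s v j : ℕ} (hj : j < 16) (h : (lane s v).testBit j = true) :
    s.testBit (16 * v + j) = true := by
  rw [testBit_lane] at h
  simpa [hj] using h

private lemma top_AX0_bit {w j : ℕ} (hw : w ∈ W16) (h9 : 9 ≤ j) (h14 : j < 14) :
    AX0.testBit (16 * w + j) = true := by
  apply top_lane_bit (by omega)
  rw [top_AX0_lane w hw]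
  exact top_bits1 j h14 h9

private lemma top_shl (a v : ℕ) : Nat.shiftLeft a (Nat.shiftLeft v 4) = a <<< (16 * v) := by
  change a <<< (v <<< 4) = a <<< (16 * v)
  rw [Nat.shiftLeft_eq v 4]
  norm_num
  rw [mul_comm]

private lemma top_tb_shl (a v j : ℕ) : (a <<< (16 * v)).testBit (16 * v + j) = a.testBit j := by
  rw [Nat.testBit_shiftLeft]
  simp

private lemma top_all {c : ℕ → ℕ} {w : ℕ} (h : Sol c w) : Cl c ALL := VG_ALL c (K_of_sol h)

private lemma top_land1023 (a : ℕ) : Nat.land a 1023 < 1024 := by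
  change a &&& 1023 < 1024
  exact Nat.lt_of_le_of_lt Nat.and_le_right (by norm_num)

private lemma top_land15 (a : ℕ) : Nat.land a 15 < 16 := by
  change a &&& 15 < 16
  exact Nat.lt_of_le_of_lt Nat.and_le_right (by norm_num)

private lemma top_br_true {b : Bool} {x y : ℕ} (h : b = true) : br b x y = x := by
  subst h
  rfl

private lemma top_br_false {b : Bool} {x y : ℕ} (h : b = false) : br b x y = y := by
  subst h
  rfl

private lemma top_beq_false {a b : ℕ} (h : ¬ a = b) : Nat.beq a b = false := by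
  cases hb : Nat.beq a b with
  | true => exact absurd (Nat.eq_of_beq_eq_true hb) h
  | false => rfl

private lemma top_beq_true {a b : ℕ} (h : a = b) : Nat.beq a b = true := by
  subst h
  exact Nat.beq_refl a

/-- the type of an inner vertex, or the vertex is the second end -/
private lemma top_inner {c : ℕ → ℕ} {w : ℕ} (h : Sol c w) {u : ℕ} (hu : u < 1024) (h0 : ¬ u = 0) :
    c u < 9 ∨ u = w := by
  by_cases hw : u = w
  · exact Or.inr hw
  · exact Or.inl (h.inner u hu h0 hw)

private lemma top_ax1 {c : ℕ → ℕ} {w : ℕ} (h : Sol c w) {u v : ℕ} (hu : u < 1024) (hv : v < 1024)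
    (hu0 : ¬ u = 0) (hv0 : ¬ v = 0) (huv : ¬ u = v) :
    Cl c (Nat.lor (Nat.shiftLeft 0x1FF (Nat.shiftLeft u 4))
      (Nat.shiftLeft 0x1FF (Nat.shiftLeft v 4))) := by
  rw [top_shl, top_shl]
  change Cl c ((0x1FF <<< (16 * u)) ||| (0x1FF <<< (16 * v)))
  rcases top_inner h hu hu0 with h1 | h1
  · refine ⟨u, hu, ?_⟩
    rw [Nat.testBit_or, top_tb_shl, top_bits2 _ h1]
    rfl
  · rcases top_inner h hv hv0 with h2 | h2
    · refine ⟨v, hv, ?_⟩
      rw [Nat.testBit_or, top_tb_shl 0x1FF v, top_bits2 _ h2]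
      simp
    · exact absurd (h1.trans h2.symm) huv

private lemma top_low (x j : ℕ) : (Nat.sub (Nat.shiftLeft 2 x) 1).testBit j = decide (j < x + 1) := by
  have h1 : Nat.sub (Nat.shiftLeft 2 x) 1 = 2 ^ (x + 1) - 1 := by
    change 2 <<< x - 1 = 2 ^ (x + 1) - 1
    rw [Nat.shiftLeft_eq, pow_succ, mul_comm]
  rw [h1, Nat.testBit_two_pow_sub_one]

private lemma top_ax2 {c : ℕ → ℕ} {w : ℕ} (h : Sol c w) {u x : ℕ} (hu : u < 1024) (hu0 : ¬ u = 0) :
    Cl c (Nat.lor (Nat.sub (Nat.shiftLeft 2 x) 1)
          (Nat.shiftLeft (Nat.lor 0x1FF (Nat.xor 0xFFFF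
              (Nat.land 0xFFFF (Nat.sub (Nat.shiftLeft 2 x) 1))))
            (Nat.shiftLeft u 4))) := by
  rw [top_shl]
  change Cl c ((Nat.sub (Nat.shiftLeft 2 x) 1) |||
    ((0x1FF ||| (0xFFFF ^^^ (0xFFFF &&& (Nat.sub (Nat.shiftLeft 2 x) 1)))) <<< (16 * u)))
  by_cases hx : c 0 ≤ x
  · refine ⟨0, by norm_num, ?_⟩
    rw [Nat.testBit_or, Nat.mul_zero, Nat.zero_add, top_low]
    simp [Nat.lt_succ_of_le hx]
  · refine ⟨u, hu, ?_⟩
    rw [Nat.testBit_or, top_tb_shl, Nat.testBit_or, Nat.testBit_xor, Nat.testBit_and, top_low x (c u)]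
    rcases top_inner h hu hu0 with h1 | h1
    · rw [top_bits2 _ h1]
      simp
    · have h2 : c 0 ≤ c u := by
        rw [h1]
        exact h.le
      have h3 : c u < 14 := by
        rw [h1]
        exact h.endw.2
      have h4 : ¬ c u < x + 1 := by omega
      rw [top_bits3 _ (by omega)]
      simp [h4]

theorem ax_sound {c : ℕ → ℕ} {w : ℕ} (h : Sol c w) (q : ℕ) : Cl c (ax q) := by
  unfold ax
  by_cases h0 : Nat.land q 3 = 0
  · rw [top_br_true (top_beq_true h0)]
    exact ⟨w, top_W16 w h.hw, top_AX0_bit h.hw h.endw.1 h.endw.2⟩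
  · rw [top_br_false (top_beq_false h0)]
    have hu := top_land1023 (Nat.shiftRight q 2)
    by_cases h1 : Nat.land q 3 = 1
    · rw [top_br_true (top_beq_true h1)]
      by_cases h2 : Nat.land (Nat.shiftRight q 2) 1023 = 0
      · rw [top_br_true (top_beq_true h2)]
        exact top_all h
      · rw [top_br_false (top_beq_false h2)]
        by_cases h3 : Nat.land (Nat.shiftRight q 12) 1023 = 0
        · rw [top_br_true (top_beq_true h3)]
          exact top_all h
        · rw [top_br_false (top_beq_false h3)]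
          by_cases h4 : Nat.land (Nat.shiftRight q 2) 1023 = Nat.land (Nat.shiftRight q 12) 1023
          · rw [top_br_true (top_beq_true h4)]
            exact top_all h
          · rw [top_br_false (top_beq_false h4)]
            exact top_ax1 h hu (top_land1023 _) h2 h3 h4
    · rw [top_br_false (top_beq_false h1)]
      by_cases h2 : Nat.land (Nat.shiftRight q 2) 1023 = 0
      · rw [top_br_true (top_beq_true h2)]
        exact top_all h
      · rw [top_br_false (top_beq_false h2)]
        exact top_ax2 h hu h2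

/-- the initial state: ends possible at 0 (only) and at the vertices of `W16` -/
def Itop : ℕ :=
  Nat.lor (Nat.xor (Nat.mul ones 0x1FF) 0x3FFF) AX0

private lemma top_I0 : lane Itop 0 = 0x3E00 := by
  decide +kernel

private lemma top_IW : ∀ w ∈ W16, lane Itop w = 0x3FFF := by
  decide +kernel

private lemma top_IV : ∀ v < 1024, v = 0 ∨ lane Itop v = 0x1FF ∨ lane Itop v = 0x3FFF := by
  decide +kernel

private lemma top_bits5 : ∀ j < 14, (0x3FFF : ℕ).testBit j = true := by
  decide

theorem sat_Itop {c : ℕ → ℕ} {w : ℕ} (h : Sol c w) : Sat c Itop := by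
  intro v hv
  by_cases h0 : v = 0
  · subst h0
    have h1 := h.end0
    apply top_lane_bit (by omega)
    rw [top_I0]
    exact top_bits1 _ h1.2 h1.1
  · rcases top_inner h hv h0 with h1 | h1
    · apply top_lane_bit (by omega)
      rcases top_IV v hv with h2 | h2 | h2
      · exact absurd h2 h0
      · rw [h2]
        exact top_bits2 _ h1
      · rw [h2]
        exact top_bits5 _ (by omega)
    · subst h1
      have h1 := h.endw
      apply top_lane_bit (by omega)
      rw [top_IW v h.hw]
      exact top_bits5 _ h1.2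

/-- remove the types in `S` at the vertex `v` -/
def res (I v S : ℕ) : ℕ := Nat.xor I (Nat.land I (Nat.shiftLeft S (Nat.shiftLeft v 4)))

private lemma top_res {c : ℕ → ℕ} {I v S : ℕ} (hc : ∀ u < 1024, c u < 15) (hS : S < 32768)
    (hI : Sat c I) (h : S.testBit (c v) = false) : Sat c (res I v S) := by
  intro u hu
  unfold res
  rw [top_shl]
  change (I ^^^ (I &&& (S <<< (16 * v)))).testBit (16 * u + c u) = true
  rw [Nat.testBit_xor, Nat.testBit_and, hI u hu]
  have h1 : (S <<< (16 * v)).testBit (16 * u + c u) = false := by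
    rw [Nat.testBit_shiftLeft]
    by_cases huv : u = v
    · subst huv
      simp [h]
    · by_cases h2 : 16 * v ≤ 16 * u + c u
      · have h3 := hc u hu
        have h4 : 15 ≤ 16 * u + c u - 16 * v := by omega
        have h5 : S < 2 ^ (16 * u + c u - 16 * v) :=
          lt_of_lt_of_le hS (by
            calc (32768 : ℕ) = 2 ^ 15 := by norm_num
              _ ≤ 2 ^ (16 * u + c u - 16 * v) := Nat.pow_le_pow_right (by norm_num) h4)
        rw [Nat.testBit_lt_two_pow h5]
        simp
      · simp [h2]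
  rw [h1]
  rfl

theorem bad_split (I v S : ℕ) (hv : v < 1024) (hS : S < 32768) (h1 : Bad (res I v S)) (h2 : Bad (res I v (Nat.xor 0x7FFF S))) :
    Bad I := by
  intro c w h hI
  have hc : ∀ u < 1024, c u < 15 := (K_of_sol h).lt
  cases hb : S.testBit (c v) with
  | false => exact h1 c w h (top_res hc hS hI hb)
  | true =>
    refine h2 c w h (top_res hc ?_ hI ?_)
    · change 0x7FFF ^^^ S < 32768
      exact Nat.xor_lt_two_pow (n := 15) (by norm_num) hS
    · change (0x7FFF ^^^ S).testBit (c v) = false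
      rw [Nat.testBit_xor, hb, top_bits4 _ (hc v hv)]
      rfl

theorem bad_top (h : Bad Itop) : ¬ ∃ c w, Sol c w := by
  rintro ⟨c, w, hs⟩
  exact h c w hs (sat_Itop hs)

end

end Pool.Agent.S10.Chk
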