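import Mathlib
import Pool.Agent.S10.Run
import Pool.Agent.S10.Top

/-!
# Cubes

The certificate of a cube: a state `I0`, a table `t` (whose entries of kind 1 refer to closed walks in the library
table `l`), blocks of lemmas checked from states `I0, I1, …`, where each state is obtained from the preceding one by
a program, and an entry with the empty clause.
-/

namespace Pool.Agent.S10.Chk

/-- the library: closed walks -/
noncomputable def lb (l : T) (q : ℕ) : ℕ := cutm (ent l q)

/-- the entries below `j` hold and the state `I` is satisfied -/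
structure Inv (l t : T) (c : ℕ → ℕ) (j I : ℕ) : Prop where
  sat : Sat c I
  wf : Wf I
  cl : ∀ i < j, Cl c (mkE (lb l) ax (ent t i))

theorem wf_of_land {I : ℕ} (h : Nat.beq (Nat.land I H) 0 = true) : Wf I := by
  have h0 : I &&& H = 0 := Nat.eq_of_beq_eq_true h
  intro v hv
  have h1 : (I &&& H).testBit (16 * v + 15) = false := by
    rw [h0, Nat.zero_testBit]
  rw [Nat.testBit_and] at h1
  have h2 : H.testBit (16 * v + 15) = true := (testBit_H _).2 ⟨by omega, by omega⟩
  rw [h2, Bool.and_true] at h1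
  exact h1

theorem Inv.start {l t : T} {c : ℕ → ℕ} {I : ℕ} (h : Sat c I) (hW : Nat.beq (Nat.land I H) 0 = true) :
    Inv l t c 0 I :=
  ⟨h, wf_of_land hW, fun i hi => absurd hi (Nat.not_lt_zero i)⟩

theorem Inv.block {l t : T} {c : ℕ → ℕ} {w j I : ℕ} (hc : Sol c w) (h : Inv l t c j I) (wm ws n : ℕ)
    (hb : blk (lb l) ax t wm ws I n j = true) : Inv l t c (j + n) I :=
  ⟨h.sat, h.wf, blk_sound (K_of_sol hc) (lb l) ax (fun _ => VG_cutm _) (ax_sound hc) t wm ws I h.sat h.wf n j
    h.cl hb⟩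

theorem Inv.reinit {l t : T} {c : ℕ → ℕ} {w j I : ℕ} (hc : Sol c w) (h : Inv l t c j I) (wm ws p J : ℕ)
    (hb : Nat.beq (rei (lb l) ax t wm ws j I p) J = true) : Inv l t c j J := by
  have h1 := rei_sound (K_of_sol hc) (lb l) ax t wm ws j I p h.sat h.wf h.cl
  have h2 : rei (lb l) ax t wm ws j I p = J := Nat.eq_of_beq_eq_true hb
  rw [h2] at h1
  exact ⟨h1.1, h1.2, h.cl⟩

theorem Inv.absurd {l t : T} {c : ℕ → ℕ} {j I : ℕ} (h : Inv l t c j I) (i : ℕ) (hi : i < j)
    (h0 : Nat.beq (mkE (lb l) ax (ent t i)) 0 = true) : False := by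
  have h1 := h.cl i hi
  have h2 : mkE (lb l) ax (ent t i) = 0 := Nat.eq_of_beq_eq_true h0
  rw [h2] at h1
  obtain ⟨v, _, hv⟩ := h1
  rw [Nat.zero_testBit] at hv
  exact Bool.false_ne_true hv

end Pool.Agent.S10.Chk
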