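import Pool.Agent.H88.SlaterDef

/-!
# Q_10 has no local Hamiltonian path: the semantic side

Vertices of `Q_10` are numbers `v < 1024` (bit masks), directions are `k < 10`; the neighbour of `v` in direction
`k` is `v ^^^ 2 ^ k`. Types of vertices: `x < 9`: the path uses the two directions `x` and `x + 1` at the vertex;
`9 ≤ x < 14`: end of the path, the only used direction is `2 * (x - 9) + 1`.
-/

namespace Pool.Agent.S10

/-- direction `k` is used at a vertex of type `x` -/
def uses (x k : ℕ) : Bool :=
  if x < 9 then (k == x || k == x + 1) else k == 2 * (x - 9) + 1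

/-- there is a closed cycle of used edges -/
def HasCycle (use : ℕ → ℕ → Prop) : Prop :=
  ∃ (m : ℕ) (f d : ℕ → ℕ), 0 < m ∧
    (∀ i < m, f i < 1024 ∧ d i < 10 ∧ use (f i) (d i) ∧ f (i + 1) = f i ^^^ 2 ^ (d i)) ∧
    f m = f 0 ∧ d m = d 0 ∧ ∀ i < m, d (i + 1) ≠ d i

/-- A spanning system of local paths without closed cycle. `D v` says that `v` is an inner vertex (not an end);
`c v` is then its type: the directions `c v` and `c v + 1` are used at `v`. Nothing is said about the used
directions at the other vertices, except for the symmetry of the relation `use`. -/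
structure Sys (use : ℕ → ℕ → Prop) (D : ℕ → Prop) (c : ℕ → ℕ) : Prop where
  lt : ∀ v < 1024, D v → c v < 9
  use_iff : ∀ v < 1024, D v → ∀ k < 10, (use v k ↔ k = c v ∨ k = c v + 1)
  symm : ∀ v < 1024, ∀ k < 10, use v k → use (v ^^^ 2 ^ k) k
  acyc : ¬ HasCycle use

/-- the 16 possible positions of the second end: odd weight in the span of the directions 0, 2, 4, 6, 8 -/
def W16 : List ℕ := [1, 4, 16, 21, 64, 69, 81, 84, 256, 261, 273, 276, 321, 324, 336, 341]

/-- a local Hamiltonian path of `Q_10` in normal form, as a labelling `c` of the vertices by types, with ends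
`0` and `w` -/
structure Sol (c : ℕ → ℕ) (w : ℕ) : Prop where
  end0 : 9 ≤ c 0 ∧ c 0 < 14
  hw : w ∈ W16
  endw : 9 ≤ c w ∧ c w < 14
  le : c 0 ≤ c w
  inner : ∀ v < 1024, v ≠ 0 → v ≠ w → c v < 9
  edge : ∀ v < 1024, ∀ k < 10, uses (c v) k = uses (c (v ^^^ 2 ^ k)) k
  acyc : ¬ HasCycle fun v k => uses (c v) k = true

end Pool.Agent.S10
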