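import Pool.Agent.S10.Defs

/-!
# [S10-RED] reduction of the path problem to the labelling `Sol`

Directions are 0-based here (direction `k` of `Fin 10`). Let `p i` (`i < 1024`) be the path as numbers, `s i` the flips.
(1) `s i` and `s (i+1)` have different parity, so `s i ≡ s 0 + i (mod 2)`; the path has 1023 edges, so both end flips `s 0`, `s 1022` have the
same parity. WLOG odd (0-based; otherwise reverse the bits of all vertices, `k ↦ 9 - k`).
(2) WLOG `p 0 = 0` (xor with `p 0`). The edges with even direction are exactly the pairs `(p (2j+1), p (2j+2))`, a matching of all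
vertices except `p 0`, `p 1023`. For every value `y` of the odd coordinates (`v &&& 0b1010101010 = y`) the set of vertices with this value has 32 elements and
is a union of matching edges and of the ends in it, so it contains 0 or 2 ends: `w := p 1023` has `w &&& 682 = 0`. The number of edges
is odd so `w` has odd weight: `w ∈ W16`.
(3) WLOG `s 0 ≤ s 1022` (otherwise reverse the path and translate by `w`).
(4) `c v` for `v = p i`: `min (s (i-1)) (s i)` for `0 < i < 1023`, and `9 + (s 0 - 1) / 2`, `9 + (s 1022 - 1) / 2` at the ends.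
(5) `edge`: `uses (c v) k` iff the edge in direction `k` at `v` is in the path.
(6) `acyc`: in a closed cycle take the vertex with the largest position `i` in the path: its two neighbours in the cycle are
different and both are neighbours in the path, of smaller position. Contradiction.
-/

namespace Pool.Agent.S10

open Pool.Agent.H88

/-- a local Hamiltonian path of `Q_10` as numbers `p i` and flips `s i` -/
structure NP (p s : ℕ → ℕ) : Prop where
  lt : ∀ i < 1024, p i < 1024
  inj : ∀ i < 1024, ∀ j < 1024, p i = p j → i = j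
  slt : ∀ i < 1023, s i < 10
  step : ∀ i < 1023, p (i + 1) = p i ^^^ 2 ^ s i
  adj : ∀ i < 1022, s (i + 1) = s i + 1 ∨ s i = s (i + 1) + 1

theorem xor_cancel (a b : ℕ) : a ^^^ b ^^^ b = a := by
  rw [Nat.xor_assoc, Nat.xor_self, Nat.xor_zero]

theorem exists_NP (h : HasLocalHamPath 10) : ∃ p s, NP p s := by
  obtain ⟨v, s, hb, hstep, hadj⟩ := h
  have h1024 : (2 : ℕ) ^ 10 = 1024 := by norm_num
  refine ⟨fun i => if h : i < 2 ^ 10 then Nat.ofBits (v ⟨i, h⟩) else 0, fun i => (s i : ℕ), ?_, ?_, ?_,
    ?_, ?_⟩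
  · intro i hi
    have hi' : i < 2 ^ 10 := by omega
    simp only [hi', dif_pos]
    have := Nat.ofBits_lt_two_pow (v ⟨i, hi'⟩)
    omega
  · intro i hi j hj hij
    have hi' : i < 2 ^ 10 := by omega
    have hj' : j < 2 ^ 10 := by omega
    simp only [hi', hj', dif_pos] at hij
    have h1 : v ⟨i, hi'⟩ = v ⟨j, hj'⟩ := by
      funext k
      have := congrArg (fun n => n.testBit k) hij
      simpa [Nat.testBit_ofBits_lt] using this
    have h2 := hb.1 h1
    simpa using h2
  · intro i _
    exact (s i).2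
  · intro i hi
    have hi1 : i + 1 < 2 ^ 10 := by omega
    have hi' : i < 2 ^ 10 := by omega
    simp only [hi1, hi', dif_pos]
    apply Nat.eq_of_testBit_eq
    intro k
    rw [Nat.testBit_xor, Nat.testBit_two_pow]
    by_cases hk : k < 10
    · rw [Nat.testBit_ofBits_lt _ _ hk, Nat.testBit_ofBits_lt _ _ hk, hstep i hi1]
      by_cases hks : (⟨k, hk⟩ : Fin 10) = s i
      · have : ((s i : ℕ) = k) := by rw [← hks]
        rw [hks, Function.update_self]
        simp [this]
      · rw [Function.update_of_ne hks]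
        have : ¬ ((s i : ℕ) = k) := fun hh => hks (Fin.ext hh.symm)
        simp [this]
    · have hk' : 10 ≤ k := by omega
      rw [Nat.testBit_ofBits_ge _ _ hk', Nat.testBit_ofBits_ge _ _ hk']
      have : ¬ ((s i : ℕ) = k) := by have := (s i).2; omega
      simp [this]
  · intro i hi
    exact hadj i (by omega)

theorem NP.surj {p s : ℕ → ℕ} (h : NP p s) : ∀ v < 1024, ∃ i < 1024, p i = v := by
  intro v hv
  let P : Fin 1024 → Fin 1024 := fun i => ⟨p i, h.lt i i.2⟩
  have hP : Function.Injective P := by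
    intro i j hij
    exact Fin.ext (h.inj i i.2 j j.2 (congrArg Fin.val hij))
  obtain ⟨i, hi⟩ := (Finite.injective_iff_surjective.mp hP) ⟨v, hv⟩
  exact ⟨i, i.2, congrArg Fin.val hi⟩

theorem NP.translate {p s : ℕ → ℕ} (h : NP p s) {t : ℕ} (ht : t < 1024) :
    NP (fun i => p i ^^^ t) s where
  lt := fun i hi => by
    have h1 : p i < 2 ^ 10 := h.lt i hi
    have h2 : t < 2 ^ 10 := ht
    exact Nat.xor_lt_two_pow h1 h2
  inj := fun i hi j hj hij => h.inj i hi j hj (Nat.xor_left_injective hij)
  slt := h.slt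
  step := fun i hi => by
    show p (i + 1) ^^^ t = p i ^^^ t ^^^ 2 ^ s i
    rw [h.step i hi, Nat.xor_assoc, Nat.xor_assoc, Nat.xor_comm (2 ^ s i) t]
  adj := h.adj

theorem NP.reverse {p s : ℕ → ℕ} (h : NP p s) :
    NP (fun i => p (1023 - i)) (fun i => s (1022 - i)) where
  lt := fun i hi => h.lt _ (by omega)
  inj := fun i hi j hj hij => by
    have := h.inj _ (by omega) _ (by omega) hij
    omega
  slt := fun i hi => h.slt _ (by omega)
  step := fun i hi => by
    show p (1023 - (i + 1)) = p (1023 - i) ^^^ 2 ^ s (1022 - i)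
    have h1 := h.step (1022 - i) (by omega)
    rw [show 1022 - i + 1 = 1023 - i by omega] at h1
    rw [h1, show 1023 - (i + 1) = 1022 - i by omega, xor_cancel]
  adj := fun i hi => by
    have h1 := h.adj (1021 - i) (by omega)
    rw [show 1021 - i + 1 = 1022 - i by omega] at h1
    show s (1022 - (i + 1)) = s (1022 - i) + 1 ∨ s (1022 - i) = s (1022 - (i + 1)) + 1
    rw [show 1022 - (i + 1) = 1021 - i by omega]
    exact h1.symm

/-- reversal of the ten bits -/
def rev10 (v : ℕ) : ℕ := Nat.ofBits (fun j : Fin 10 => v.testBit (9 - j))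

theorem rev10_testBit (v k : ℕ) : (rev10 v).testBit k = (decide (k < 10) && v.testBit (9 - k)) := by
  unfold rev10
  by_cases hk : k < 10
  · rw [Nat.testBit_ofBits_lt _ _ hk]; simp [hk]
  · rw [Nat.testBit_ofBits_ge _ _ (by omega)]; simp [hk]

theorem rev10_lt (v : ℕ) : rev10 v < 1024 := Nat.ofBits_lt_two_pow _

theorem rev10_rev10 {v : ℕ} (hv : v < 1024) : rev10 (rev10 v) = v := by
  apply Nat.eq_of_testBit_eq
  intro k
  rw [rev10_testBit, rev10_testBit]
  by_cases hk : k < 10
  · have h1 : 9 - k < 10 := by omega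
    have h2 : 9 - (9 - k) = k := by omega
    simp [hk, h1, h2]
  · have h1 : v < 2 ^ k := lt_of_lt_of_le (show v < 2 ^ 10 from hv)
      (Nat.pow_le_pow_right (by norm_num) (by omega))
    simp [hk, Nat.testBit_lt_two_pow h1]

theorem rev10_xor (v : ℕ) {k : ℕ} (hk : k < 10) : rev10 (v ^^^ 2 ^ k) = rev10 v ^^^ 2 ^ (9 - k) := by
  apply Nat.eq_of_testBit_eq
  intro j
  rw [rev10_testBit, Nat.testBit_xor, Nat.testBit_xor, rev10_testBit, Nat.testBit_two_pow,
    Nat.testBit_two_pow]
  by_cases hj : j < 10
  · have h1 : decide (k = 9 - j) = decide (9 - k = j) := by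
      apply decide_eq_decide.mpr
      omega
    simp [hj, h1]
  · have h1 : ¬ (9 - k = j) := by omega
    simp [hj, h1]

theorem NP.mirror {p s : ℕ → ℕ} (h : NP p s) : NP (fun i => rev10 (p i)) (fun i => 9 - s i) where
  lt := fun i _ => rev10_lt _
  inj := fun i hi j hj hij => by
    apply h.inj i hi j hj
    have := congrArg rev10 hij
    rwa [rev10_rev10 (h.lt i hi), rev10_rev10 (h.lt j hj)] at this
  slt := fun i _ => by omega
  step := fun i hi => by
    show rev10 (p (i + 1)) = rev10 (p i) ^^^ 2 ^ (9 - s i)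
    rw [h.step i hi, rev10_xor _ (h.slt i hi)]
  adj := fun i hi => by
    have h1 := h.adj i hi
    have h2 := h.slt i (by omega)
    have h3 := h.slt (i + 1) (by omega)
    show 9 - s (i + 1) = 9 - s i + 1 ∨ 9 - s i = 9 - s (i + 1) + 1
    omega

theorem NP.parity {p s : ℕ → ℕ} (h : NP p s) : ∀ i < 1023, s i % 2 = (s 0 + i) % 2 := by
  intro i
  induction i with
  | zero => intro _; simp
  | succ i ih =>
    intro hi
    have h1 := ih (by omega)
    have h2 := h.adj i (by omega)
    omega

/-- number of ones -/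
def pc (v : ℕ) : ℕ := ((List.range 10).filter fun k => v.testBit k).length

theorem pc_xor : ∀ v < 1024, ∀ k < 10, pc (v ^^^ 2 ^ k) % 2 = (pc v + 1) % 2 := by
  decide +kernel

theorem w16_of : ∀ w < 1024, w &&& 682 = 0 → pc w % 2 = 1 → w ∈ W16 := by
  decide +kernel

theorem and682 : ∀ v < 1024, ∀ k < 10, k % 2 = 0 → (v ^^^ 2 ^ k) &&& 682 = v &&& 682 := by
  decide +kernel

theorem card682 : ((List.range 1024).filter fun v => v &&& 682 == 0).length = 32 := by
  decide +kernel

theorem sum_pairs (a : ℕ → ℕ) (n : ℕ) : ∑ i ∈ Finset.range (2 * n + 1), a i =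
    a 0 + ∑ j ∈ Finset.range n, (a (2 * j + 1) + a (2 * j + 2)) := by
  induction n with
  | zero => simp
  | succ n ih =>
    rw [show 2 * (n + 1) + 1 = (2 * n + 1) + 1 + 1 by ring, Finset.sum_range_succ,
      Finset.sum_range_succ, ih, Finset.sum_range_succ]
    ring

theorem NP.pc_mod {p s : ℕ → ℕ} (h : NP p s) (h0 : p 0 = 0) : ∀ i < 1024, pc (p i) % 2 = i % 2 := by
  intro i
  induction i with
  | zero => intro _; rw [h0]; decide
  | succ i ih =>
    intro hi
    have h1 := ih (by omega)
    rw [h.step i (by omega), pc_xor _ (h.lt i (by omega)) _ (h.slt i (by omega))]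
    omega

theorem NP.end_class {p s : ℕ → ℕ} (h : NP p s) (hodd : s 0 % 2 = 1) (h0 : p 0 = 0) :
    p 1023 &&& 682 = 0 := by
  set g : ℕ → ℕ := fun v => if v &&& 682 = 0 then 1 else 0 with hg
  -- the sum over the path equals the sum over all vertices
  have hsum : ∑ i ∈ Finset.range 1024, g (p i) = ∑ v ∈ Finset.range 1024, g v := by
    refine Finset.sum_nbij p ?_ ?_ ?_ (fun _ _ => rfl)
    · intro i hi
      exact Finset.mem_range.mpr (h.lt i (Finset.mem_range.mp hi))
    · intro i hi j hj hij
      exact h.inj i (Finset.mem_range.mp (Finset.mem_coe.mp hi)) j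
        (Finset.mem_range.mp (Finset.mem_coe.mp hj)) hij
    · intro v hv
      obtain ⟨i, hi, rfl⟩ := h.surj v (Finset.mem_range.mp (Finset.mem_coe.mp hv))
      exact ⟨i, Finset.mem_coe.mpr (Finset.mem_range.mpr hi), rfl⟩
  have hcard : ∑ v ∈ Finset.range 1024, g v = 32 := by
    rw [← card682]
    rw [Finset.sum_ite]
    simp only [Finset.sum_const, smul_eq_mul, mul_one, mul_zero, add_zero]
    have : (Finset.range 1024).filter (fun v => v &&& 682 = 0) =
        ((List.range 1024).filter fun v => v &&& 682 == 0).toFinset := by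
      ext v
      simp
    rw [this, List.toFinset_card_of_nodup]
    exact List.nodup_range.filter _
  have hsplit : ∑ i ∈ Finset.range 1024, g (p i) =
      g (p 0) + ∑ j ∈ Finset.range 511, (g (p (2 * j + 1)) + g (p (2 * j + 2))) + g (p 1023) := by
    rw [show (1024 : ℕ) = (2 * 511 + 1) + 1 by norm_num, Finset.sum_range_succ,
      sum_pairs (fun i => g (p i)) 511]
  have hpair : ∀ j ∈ Finset.range 511, g (p (2 * j + 1)) + g (p (2 * j + 2)) =
      2 * g (p (2 * j + 1)) := by
    intro j hj
    have hj' := Finset.mem_range.mp hj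
    have h1 : p (2 * j + 2) &&& 682 = p (2 * j + 1) &&& 682 := by
      rw [show 2 * j + 2 = (2 * j + 1) + 1 by ring, h.step (2 * j + 1) (by omega)]
      apply and682 _ (h.lt _ (by omega)) _ (h.slt _ (by omega))
      have := h.parity (2 * j + 1) (by omega)
      omega
    have h2 : g (p (2 * j + 2)) = g (p (2 * j + 1)) := by
      simp only [hg, h1]
    rw [h2]; ring
  rw [Finset.sum_congr rfl hpair, ← Finset.mul_sum, hsum, hcard] at hsplit
  have hg0 : g (p 0) = 1 := by rw [h0]; simp [hg]
  rw [hg0] at hsplit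
  by_contra hne
  have : g (p 1023) = 0 := by simp [hg, hne]
  rw [this] at hsplit
  omega

/-- normalised path -/
theorem exists_norm (h : HasLocalHamPath 10) :
    ∃ p s, NP p s ∧ s 0 % 2 = 1 ∧ s 0 ≤ s 1022 ∧ p 0 = 0 := by
  obtain ⟨p, s, hp⟩ := exists_NP h
  -- odd
  obtain ⟨p, s, hp, hodd⟩ : ∃ p s, NP p s ∧ s 0 % 2 = 1 := by
    by_cases h1 : s 0 % 2 = 1
    · exact ⟨p, s, hp, h1⟩
    · refine ⟨_, _, hp.mirror, ?_⟩
      have := hp.slt 0 (by norm_num)
      show (9 - s 0) % 2 = 1
      omega
  -- order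
  obtain ⟨p, s, hp, hodd, hle⟩ : ∃ p s, NP p s ∧ s 0 % 2 = 1 ∧ s 0 ≤ s 1022 := by
    by_cases h1 : s 0 ≤ s 1022
    · exact ⟨p, s, hp, hodd, h1⟩
    · have h2 := hp.parity 1022 (by norm_num)
      refine ⟨_, _, hp.reverse, ?_, ?_⟩
      · show s (1022 - 0) % 2 = 1
        rw [Nat.sub_zero]; omega
      · show s (1022 - 0) ≤ s (1022 - 1022)
        rw [Nat.sub_zero, Nat.sub_self]; omega
  refine ⟨_, _, hp.translate (hp.lt 0 (by norm_num)), hodd, hle, ?_⟩
  show p 0 ^^^ p 0 = 0
  exact Nat.xor_self _

theorem exists_sol (h : HasLocalHamPath 10) : ∃ c w, Sol c w := by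
  obtain ⟨p, s, hp, hodd, hle, h0⟩ := exists_norm h
  have hodd' : s 1022 % 2 = 1 := by
    have := hp.parity 1022 (by norm_num)
    omega
  -- positions
  have hpos : ∃ pos : ℕ → ℕ, ∀ v < 1024, pos v < 1024 ∧ p (pos v) = v := by
    refine ⟨fun v => if hv : v < 1024 then Classical.choose (hp.surj v hv) else 0, fun v hv => ?_⟩
    simp only [hv, dif_pos]
    exact Classical.choose_spec (hp.surj v hv)
  obtain ⟨pos, hpos⟩ := hpos
  have hposp : ∀ i < 1024, pos (p i) = i := by
    intro i hi
    obtain ⟨h1, h2⟩ := hpos (p i) (hp.lt i hi)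
    exact hp.inj _ h1 _ hi h2
  set c : ℕ → ℕ := fun v => if pos v = 0 then 9 + (s 0 - 1) / 2 else
    if pos v = 1023 then 9 + (s 1022 - 1) / 2 else min (s (pos v - 1)) (s (pos v)) with hc
  -- characterisation of the used directions
  have huse : ∀ v < 1024, ∀ k, uses (c v) k = true ↔
      (pos v < 1023 ∧ s (pos v) = k) ∨ (0 < pos v ∧ s (pos v - 1) = k) := by
    intro v hv k
    obtain ⟨h1, h2⟩ := hpos v hv
    have hs0 := hp.slt 0 (by norm_num)
    have hs1 := hp.slt 1022 (by norm_num)
    by_cases hz : pos v = 0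
    · have hcv : c v = 9 + (s 0 - 1) / 2 := by simp only [hc, hz, if_true]
      rw [hcv, hz]
      unfold uses
      have : ¬ (9 + (s 0 - 1) / 2 < 9) := by omega
      simp only [this, if_false, beq_iff_eq]
      constructor
      · intro hk; left; constructor
        · norm_num
        · omega
      · rintro (⟨_, hk⟩ | ⟨hk, _⟩)
        · omega
        · omega
    by_cases ho : pos v = 1023
    · have hcv : c v = 9 + (s 1022 - 1) / 2 := by
        simp only [hc, ho]; norm_num
      rw [hcv, ho]
      unfold uses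
      have : ¬ (9 + (s 1022 - 1) / 2 < 9) := by omega
      simp only [this, if_false, beq_iff_eq]
      constructor
      · intro hk; right; constructor
        · norm_num
        · show s 1022 = k
          omega
      · rintro (⟨hk, _⟩ | ⟨_, hk⟩)
        · omega
        · have hk' : s 1022 = k := hk
          omega
    · have hcv : c v = min (s (pos v - 1)) (s (pos v)) := by
        simp only [hc, hz, ho, if_false]
      have ha := hp.adj (pos v - 1) (by omega)
      rw [show pos v - 1 + 1 = pos v by omega] at ha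
      have hl1 := hp.slt (pos v) (by omega)
      have hl2 := hp.slt (pos v - 1) (by omega)
      have hlt : c v < 9 := by rw [hcv]; omega
      unfold uses
      simp only [hlt, if_true, Bool.or_eq_true, beq_iff_eq]
      rw [hcv]
      have : pos v < 1023 := by omega
      have : 0 < pos v := by omega
      omega
  have hedge : ∀ v < 1024, ∀ k < 10, uses (c v) k = true → uses (c (v ^^^ 2 ^ k)) k = true := by
    intro v hv k hk hu
    have hv' : v ^^^ 2 ^ k < 1024 := by
      have h1 : v < 2 ^ 10 := hv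
      have h2 : 2 ^ k < 2 ^ 10 := Nat.pow_lt_pow_right (by norm_num) hk
      exact Nat.xor_lt_two_pow h1 h2
    rw [huse v hv] at hu
    rw [huse _ hv']
    obtain ⟨h1, h2⟩ := hpos v hv
    rcases hu with ⟨h3, h4⟩ | ⟨h3, h4⟩
    · have h5 := hp.step (pos v) h3
      rw [h2, h4] at h5
      rw [← h5, hposp _ (by omega)]
      right
      exact ⟨by omega, by rw [Nat.add_sub_cancel]; exact h4⟩
    · have h5 := hp.step (pos v - 1) (by omega)
      rw [show pos v - 1 + 1 = pos v by omega, h2, h4] at h5
      have h6 : v ^^^ 2 ^ k = p (pos v - 1) :=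
        (congrArg (fun x => x ^^^ 2 ^ k) h5).trans (xor_cancel _ _)
      rw [h6, hposp _ (by omega)]
      left
      exact ⟨by omega, h4⟩
  have hw : p 1023 < 1024 := hp.lt _ (by norm_num)
  have hpw : pos (p 1023) = 1023 := hposp _ (by norm_num)
  have hp0 : pos 0 = 0 := by
    have := hposp 0 (by norm_num)
    rwa [h0] at this
  have hs0 := hp.slt 0 (by norm_num)
  have hs1 := hp.slt 1022 (by norm_num)
  have hc0 : c 0 = 9 + (s 0 - 1) / 2 := by simp only [hc, hp0, if_true]
  have hcw : c (p 1023) = 9 + (s 1022 - 1) / 2 := by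
    simp only [hc, hpw]; norm_num
  refine ⟨c, p 1023, ⟨?_, ?_, ?_, ?_, ?_, ?_, ?_⟩⟩
  · rw [hc0]; omega
  · exact w16_of _ hw (hp.end_class hodd h0) (by
      have := hp.pc_mod h0 1023 (by norm_num)
      omega)
  · rw [hcw]; omega
  · rw [hc0, hcw]; omega
  · intro v hv hv0 hvw
    obtain ⟨h1, h2⟩ := hpos v hv
    have hz : pos v ≠ 0 := by
      intro hh; rw [hh, h0] at h2; exact hv0 h2.symm
    have ho : pos v ≠ 1023 := by
      intro hh; rw [hh] at h2; exact hvw h2.symm
    have hcv : c v = min (s (pos v - 1)) (s (pos v)) := by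
      simp only [hc, hz, ho, if_false]
    have ha := hp.adj (pos v - 1) (by omega)
    rw [show pos v - 1 + 1 = pos v by omega] at ha
    have hl1 := hp.slt (pos v) (by omega)
    have hl2 := hp.slt (pos v - 1) (by omega)
    rw [hcv]; omega
  · intro v hv k hk
    have hv' : v ^^^ 2 ^ k < 1024 := by
      have h1 : v < 2 ^ 10 := hv
      have h2 : 2 ^ k < 2 ^ 10 := Nat.pow_lt_pow_right (by norm_num) hk
      exact Nat.xor_lt_two_pow h1 h2
    rw [Bool.eq_iff_iff]
    constructor
    · exact hedge v hv k hk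
    · intro hu
      have := hedge _ hv' k hk hu
      rwa [xor_cancel] at this
  · rintro ⟨m, f, d, hm, hf, hfm, hdm, hne⟩
    -- indices `1 ≤ i ≤ m`
    have hflt : ∀ i, i ≤ m → f i < 1024 := by
      intro i hi
      rcases Nat.lt_or_ge i m with h1 | h1
      · exact (hf i h1).1
      · have : i = m := le_antisymm hi h1
        rw [this, hfm]; exact (hf 0 hm).1
    obtain ⟨i, hi, hmax⟩ := Finset.exists_max_image (Finset.Icc 1 m) (fun i => pos (f i))
      ⟨1, Finset.mem_Icc.mpr ⟨le_rfl, hm⟩⟩
    obtain ⟨hi1, hi2⟩ := Finset.mem_Icc.mp hi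
    have hmax' : ∀ j, j ≤ m → pos (f j) ≤ pos (f i) := by
      intro j hj
      rcases Nat.eq_zero_or_pos j with h1 | h1
      · rw [h1, ← hfm]
        exact hmax m (Finset.mem_Icc.mpr ⟨hm, le_rfl⟩)
      · exact hmax j (Finset.mem_Icc.mpr ⟨h1, hj⟩)
    -- key: a used direction whose neighbour is in the cycle
    have key : ∀ k < 10, uses (c (f i)) k = true → (∃ j ≤ m, f j = f i ^^^ 2 ^ k) →
        0 < pos (f i) ∧ s (pos (f i) - 1) = k := by
      intro k hk hu hj
      obtain ⟨j, hj, hfj⟩ := hj
      have hx := hflt i hi2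
      rw [huse _ hx] at hu
      rcases hu with ⟨h3, h4⟩ | h3
      · exfalso
        obtain ⟨h1, h2⟩ := hpos (f i) hx
        have h5 := hp.step _ h3
        rw [h2, h4, ← hfj] at h5
        have h6 : pos (f j) = pos (f i) + 1 := by
          rw [← h5, hposp _ (by omega)]
        have := hmax' j hj
        omega
      · exact h3
    -- incoming
    have hin := hf (i - 1) (by omega)
    have hin2 : f i = f (i - 1) ^^^ 2 ^ d (i - 1) := by
      have := hin.2.2.2
      rwa [show i - 1 + 1 = i by omega] at this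
    have hA : uses (c (f i)) (d (i - 1)) = true := by
      rw [hin2]
      exact hedge _ hin.1 _ hin.2.1 hin.2.2.1
    have hA2 := key (d (i - 1)) hin.2.1 hA ⟨i - 1, by omega, by rw [hin2, xor_cancel]⟩
    -- outgoing
    have hout : d i < 10 ∧ uses (c (f i)) (d i) = true ∧ ∃ j ≤ m, f j = f i ^^^ 2 ^ d i := by
      rcases Nat.lt_or_ge i m with h1 | h1
      · obtain ⟨_, h3, h4, h5⟩ := hf i h1
        exact ⟨h3, h4, i + 1, by omega, h5⟩
      · have him : i = m := le_antisymm hi2 h1
        obtain ⟨_, h3, h4, h5⟩ := hf 0 hm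
        rw [him, hdm, hfm]
        exact ⟨h3, h4, 1, hm, h5⟩
    have hB2 := key (d i) hout.1 hout.2.1 hout.2.2
    have h7 : d i ≠ d (i - 1) := by
      have := hne (i - 1) (by omega)
      rwa [show i - 1 + 1 = i by omega] at this
    exact h7 (hB2.2.symm.trans hA2.2)

end Pool.Agent.S10
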